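import Pool.Agent.H35.RL.RDefs
import Pool.Agent.H79.Eul.NullB

/-!
# Module NullForm: preimages of null sets

PROOFS. `null_form`: `L` is a nonzero, hence surjective, linear form, as a real linear map
`E d → ℂ`; pick `e` with `L e = 1` (scale). Either `LinearMap.exists_map_addHaar_eq_smul_addHaar` (the
push-forward of Haar measure under a surjective linear map is a multiple of Haar measure;
`volume_haar d`), applied to a measurable null superset of `S` (`toMeasurable`), or Fubini: the sets
`{c : ℂ | L (v + c e) ∈ S} = S - L v` are null for every `v` (`null_of_lines`-style lemma `fubini_line` in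
H79/Eul/NullA, or `MeasureTheory.Measure.ae_ae_add_linearMap_mem`-type statements).
`null_psi`: the set is contained in `φ '' (S ∩ U)`, `U = ψ '' ball 0 ρ`, `φ` differentiable at every
point of `U` (`L.phi_diff`), so the image of the null set `S ∩ U` is null:
`MeasureTheory.addHaar_image_eq_zero_of_differentiableOn_of_addHaar_eq_zero` (real derivative:
`restrictScalars`; the points of `S ∩ U` are points of differentiability, so
`DifferentiableOn ℝ φ (S ∩ U)`). `X = φ (ψ X)`.
-/

set_option autoImplicit false

open Filter Topology Polynomial Metric Set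

namespace Pool.Agent.H35.RL

open Pool.Agent.H44.Fatou Pool.Agent.H32.BT Pool.Agent.H79.Eul Pool.Agent.H79.Par

open MeasureTheory in
theorem null_form {d : ℕ} (L : E d → ℂ) (hadd : ∀ v w, L (v + w) = L v + L w)
    (hsmul : ∀ (c : ℂ) (v : E d), L (c • v) = c * L v) (hne : ∃ v, L v ≠ 0) {S : Set ℂ}
    (hS : volume S = 0) : volume (L ⁻¹' S) = 0 := by
  haveI := volume_haar d
  obtain ⟨v0, hv0⟩ := hne
  let f : E d →ₗ[ℝ] ℂ :=
    { toFun := L
      map_add' := hadd
      map_smul' := by
        intro c v
        have h1 := hsmul (c : ℂ) v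
        have h2 : ((c : ℂ) • v) = (c : ℝ) • v := by
          ext <;> simp
        rw [h2] at h1
        rw [h1]
        simp }
  have hsurj : Function.Surjective f := by
    intro y
    refine ⟨(y / L v0) • v0, ?_⟩
    change L ((y / L v0) • v0) = y
    rw [hsmul, div_mul_cancel₀ _ hv0]
  have h1 : ∀ᵐ y : ℂ, y ∈ (toMeasurable volume S)ᶜ := by
    rw [ae_iff]
    have h2 : {a : ℂ | a ∉ (toMeasurable volume S)ᶜ} = toMeasurable volume S := by
      ext a; simp
    rw [h2, measure_toMeasurable, hS]
  have h2 := (ae_comp_linearMap_mem_iff f (volume : Measure (E d)) (volume : Measure ℂ) hsurj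
    (measurableSet_toMeasurable volume S).compl).2 h1
  rw [ae_iff] at h2
  refine measure_mono_null ?_ h2
  intro v hv hv2
  exact hv2 (subset_toMeasurable volume S hv)

open MeasureTheory in
theorem null_psi {F : ℂ → ℂ} {w lam : ℂ} {φ ψ : ℂ → ℂ} {ρ : ℝ} (L : Lin F w lam φ ψ ρ) {S : Set ℂ}
    (hS : volume S = 0) : volume {X : ℂ | X ∈ ball (0 : ℂ) ρ ∧ ψ X ∈ S} = 0 := by
  set U : Set ℂ := ψ '' ball 0 ρ with hU
  have hd : DifferentiableOn ℝ φ (S ∩ U) := by
    rintro z ⟨_, X, hX, rfl⟩
    exact ((L.phi_diff X hX).restrictScalars ℝ).differentiableWithinAt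
  have h1 : volume (φ '' (S ∩ U)) = 0 :=
    addHaar_image_eq_zero_of_differentiableOn_of_addHaar_eq_zero volume hd
      (measure_mono_null inter_subset_left hS)
  refine measure_mono_null ?_ h1
  rintro X ⟨hX, hXS⟩
  exact ⟨ψ X, ⟨hXS, X, hX, rfl⟩, L.phi_psi X hX⟩

end Pool.Agent.H35.RL
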