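import Pool.Agent.H35.RL.RDefs
import Pool.Agent.H79.Par.XXLin

/-!
# Module Cocyc: the transversality functional: cocycle property, linearity, shift

PROOFS. `XX_cocycle`: induction on `m`: `XX_(m+1+k) z = xi (it v0 (m+k) z) + g'(it v0 (m+k) z) XX_(m+k) z`,
`it v0 (m + k) z = it v0 m (it v0 k z)` (`it_add`), `trD v0 (m+1) w = g'(it v0 m w) * trD v0 m w`
(`Finset.prod_range_succ`). `kap_add`, `kap_smul`: `XX_add`, `XX_smul`. `kap_shift`: if `wv v0 (x j) = 0`,
`j < k`, then `trD v0 (k - j) (x j) = 0` (its factor `i = 0` vanishes; `it v0 0 z = z`), so by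
`XX_cocycle` with `m = k - j` and `it v0 j (x 0) = x j` (`orb_it`) `XX v0 v k (x 0) = XX v0 v (k - j) (x j)`;
`j + (k - j) = k`.
-/

set_option autoImplicit false

open Filter Topology Polynomial Metric Set

namespace Pool.Agent.H35.RL

open Pool.Agent.H44.Fatou Pool.Agent.H32.BT Pool.Agent.H79.Eul Pool.Agent.H79.Par

theorem XX_cocycle {d : ℕ} (v0 v : E d) (m k : ℕ) (z : ℂ) :
    XX v0 v (m + k) z = XX v0 v m (it v0 k z) + trD v0 m (it v0 k z) * XX v0 v k z := by
  induction m with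
  | zero => simp [XX, trD]
  | succ m ih =>
    have h1 : m + 1 + k = (m + k) + 1 := by omega
    rw [h1]
    simp only [XX]
    rw [ih, it_add]
    unfold trD
    rw [Finset.prod_range_succ]
    ring

theorem kap_add {d : ℕ} (v0 v w : E d) (x : ℕ → ℂ) (k n : ℕ) :
    kap v0 (v + w) x k n = kap v0 v x k n + kap v0 w x k n := by
  unfold kap
  rw [XX_add, XX_add]
  ring

theorem kap_smul {d : ℕ} (v0 v : E d) (c : ℂ) (x : ℕ → ℂ) (k n : ℕ) :
    kap v0 (c • v) x k n = c * kap v0 v x k n := by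
  unfold kap
  rw [XX_smul, XX_smul]
  ring

/-- only the last critical point of the orbit matters -/
theorem kap_shift {d : ℕ} (v0 v : E d) {x : ℕ → ℂ} {j k n : ℕ} (hj : j < k) (ho : Orb v0 x k)
    (hw : wv v0 (x j) = 0) : kap v0 v x k n = kap v0 v (fun i => x (j + i)) (k - j) n := by
  have h1 : trD v0 (k - j) (x j) = 0 := by
    unfold trD
    refine Finset.prod_eq_zero (i := 0) (Finset.mem_range.2 (by omega)) ?_
    show wv v0 (x j) / ev v0.2 (x j) ^ 2 = 0
    rw [hw, zero_div]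
  have h2 : XX v0 v k (x 0) = XX v0 v (k - j) (x j) := by
    have h3 := XX_cocycle v0 v (k - j) j (x 0)
    rw [orb_it ho j hj.le, h1, zero_mul, add_zero] at h3
    rw [← h3]
    congr 1
    omega
  unfold kap
  have h4 : j + (k - j) = k := by omega
  show XX v0 v k (x 0) + XX v0 v n (x k) / (trD v0 n (x k) - 1)
    = XX v0 v (k - j) (x (j + 0)) + XX v0 v n (x (j + (k - j))) / (trD v0 n (x (j + (k - j))) - 1)
  rw [h4, h2, Nat.add_zero]

end Pool.Agent.H35.RL
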