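import Pool.Agent.H35.RL.CritVal

/-!
# Module CritIt: first order motion of the critical orbits

PROOF by induction on `k ≥ 1` (`Nat.le_induction`). `k = 1`: `crit_val` (`x 1 = it v0 1 (x 0)` and
`XX v0 v 1 (x 0) = xi v0 v (x 0) + _ * 0`; `Orb` gives `ev v0.2 (x 0) ≠ 0`). Step `k → k + 1`: put
`p = it (pv) k y.2`; by induction `(p - x k) / h → XX v0 v k (x 0)`, in particular `p → x k`
(`h → 0`, `flt_lim`, `flt_pos`). `it (pv) (k+1) y.2 - x (k+1) = (it (pv) 1 p - it v0 1 p) + (it v0 1 p -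
it v0 1 (x k))`. The first, divided by `h`, tends to `XX v0 v 1 (x k) = xi v0 v (x k)` (`fo` with `n = 1`
at `x k`, composed with `y ↦ (y.1, p)`). The second: `it v0 1` has derivative
`wv v0 (x k) / ev v0.2 (x k) ^ 2` at `x k` (`tr_hasDerivAt_ev`), so divided by `h` it tends to
`wv v0 (x k) / ev v0.2 (x k) ^ 2 * XX v0 v k (x 0)` (`hasDerivAt_iff_isLittleO`, or write it as
`slope * ((p - x k) / h)`). The sum is `XX v0 v (k+1) (x 0)` since `it v0 k (x 0) = x k` (`orb_it`).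
-/

set_option autoImplicit false

open Filter Topology Polynomial Metric Set

namespace Pool.Agent.H35.RL

open Pool.Agent.H44.Fatou Pool.Agent.H32.BT Pool.Agent.H79.Eul Pool.Agent.H79.Par

theorem crit_it {d : ℕ} {v0 v : E d} (hcop : IsCoprime (pol v0.1) (pol v0.2))
    (hdeg : 1 ≤ max (pol v0.1).natDegree (pol v0.2).natDegree) {x : ℕ → ℂ} {k : ℕ} (hk : 1 ≤ k)
    (ho : Orb v0 x k) :
    Tendsto (fun y : (E d × ℝ) × ℂ => (it (pv v0 y.1) k y.2 - x k) / (y.1.2 : ℂ))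
      ((flt v ×ˢ 𝓝 (x 0)) ⊓ 𝓟 (crs v0)) (𝓝 (XX v0 v k (x 0))) := by
  induction k, hk using Nat.le_induction with
  | base =>
    obtain ⟨h1, h2⟩ := ho 0 (by norm_num)
    have h3 := crit_val (v := v) hcop hdeg h1
    have e1 : XX v0 v 1 (x 0) = xi v0 v (x 0) := by simp [XX, it]
    have e2 : it v0 1 (x 0) = x 1 := h2
    rw [e2] at h3
    rw [e1]
    exact h3
  | succ k hk ih =>
    have ho' : Orb v0 x k := fun j hj => ho j (by omega)
    have ih' := ih ho'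
    obtain ⟨hd, hx1⟩ := ho k (by omega)
    have hle : (flt v ×ˢ 𝓝 (x 0)) ⊓ 𝓟 (crs v0) ≤ flt v ×ˢ 𝓝 (x 0) := inf_le_left
    have hfst : Tendsto (fun y : (E d × ℝ) × ℂ => y.1)
        ((flt v ×ˢ 𝓝 (x 0)) ⊓ 𝓟 (crs v0)) (Pool.Agent.H79.Eul.flt v) :=
      tendsto_fst.mono_left hle
    have hpos : ∀ᶠ y : (E d × ℝ) × ℂ in (flt v ×ˢ 𝓝 (x 0)) ⊓ 𝓟 (crs v0), 0 < y.1.2 :=
      hfst.eventually (Pool.Agent.H79.Par.flt_pos v)
    have hh : Tendsto (fun y : (E d × ℝ) × ℂ => ((y.1.2 : ℝ) : ℂ))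
        ((flt v ×ˢ 𝓝 (x 0)) ⊓ 𝓟 (crs v0)) (𝓝 0) := by
      have h1 := (Complex.continuous_ofReal.tendsto 0).comp
        ((Pool.Agent.H79.Par.flt_lim v).comp hfst)
      simpa [Function.comp_def] using h1
    -- the moving point converges
    have hp : Tendsto (fun y : (E d × ℝ) × ℂ => it (pv v0 y.1) k y.2)
        ((flt v ×ˢ 𝓝 (x 0)) ⊓ 𝓟 (crs v0)) (𝓝 (x k)) := by
      have h1 := (ih'.mul hh).add_const (x k)
      rw [mul_zero, zero_add] at h1
      refine h1.congr' ?_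
      filter_upwards [hpos] with y hy
      have hne : ((y.1.2 : ℝ) : ℂ) ≠ 0 := by exact_mod_cast hy.ne'
      rw [div_mul_cancel₀ _ hne]
      ring
    -- first part
    have ho1 : Orb v0 (fun j => x (k + j)) 1 := by
      intro j hj
      have hj0 : j = 0 := by omega
      subst hj0
      exact ⟨hd, hx1⟩
    have p1 : Tendsto (fun y : (E d × ℝ) × ℂ =>
        (it (pv v0 y.1) 1 (it (pv v0 y.1) k y.2) - it v0 1 (it (pv v0 y.1) k y.2)) / (y.1.2 : ℂ))
        ((flt v ×ˢ 𝓝 (x 0)) ⊓ 𝓟 (crs v0)) (𝓝 (xi v0 v (x k))) := by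
      have h1 := (fo (v := v) ho1).comp (hfst.prodMk hp)
      have e1 : XX v0 v 1 (x (k + 0)) = xi v0 v (x k) := by simp [XX, it]
      rw [e1] at h1
      exact h1
    -- second part
    have hder : HasDerivAt (fun w => it v0 1 w) (wv v0 (x k) / ev v0.2 (x k) ^ 2) (x k) :=
      tr_hasDerivAt_ev v0 (x k) hd
    have p2 : Tendsto (fun y : (E d × ℝ) × ℂ =>
        (it v0 1 (it (pv v0 y.1) k y.2) - it v0 1 (x k)) / (y.1.2 : ℂ))
        ((flt v ×ˢ 𝓝 (x 0)) ⊓ 𝓟 (crs v0))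
        (𝓝 (wv v0 (x k) / ev v0.2 (x k) ^ 2 * XX v0 v k (x 0))) := by
      have h1 : ContinuousAt (dslope (fun w => it v0 1 w) (x k)) (x k) :=
        continuousAt_dslope_same.2 hder.differentiableAt
      have h2 : Tendsto (fun y : (E d × ℝ) × ℂ =>
          dslope (fun w => it v0 1 w) (x k) (it (pv v0 y.1) k y.2))
          ((flt v ×ˢ 𝓝 (x 0)) ⊓ 𝓟 (crs v0)) (𝓝 (wv v0 (x k) / ev v0.2 (x k) ^ 2)) := by
        have h3 := h1.tendsto.comp hp
        rw [dslope_same, hder.deriv] at h3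
        exact h3
      refine (h2.mul ih').congr fun y => ?_
      have h4 := sub_smul_dslope (fun w => it v0 1 w) (x k) (it (pv v0 y.1) k y.2)
      rw [smul_eq_mul] at h4
      rw [← h4]
      ring
    have h5 := p1.add p2
    have e3 : XX v0 v (k + 1) (x 0) = xi v0 v (x k) +
        wv v0 (x k) / ev v0.2 (x k) ^ 2 * XX v0 v k (x 0) := by
      simp only [XX]
      rw [orb_it ho' k le_rfl]
    rw [e3]
    refine h5.congr fun y => ?_
    rw [← add_div]
    congr 1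
    have e4 : it (pv v0 y.1) (k + 1) y.2 = it (pv v0 y.1) 1 (it (pv v0 y.1) k y.2) := rfl
    have e5 : it v0 1 (x k) = x (k + 1) := hx1
    rw [e4, e5]
    ring

end Pool.Agent.H35.RL
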