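import Pool.Agent.H35.RL.RDefs
import Pool.Agent.H79.Par.CopNear
import Pool.Agent.H79.Par.It

/-!
# Module PullAtt: pulling attraction back along an orbit which stays near a cycle

PROOFS. `pull_one`: if all denominators along the first `n` steps are not `0`, `rat_it` gives
`(Rf w)^[n] z = it w n z`, and `att_iter` (H32/BT/Top, continuity of `Rf w` from `rat_continuous`) gives
`Att (it w n z) → Att z`. `pull_near`: `orb_near` for the orbit `x` gives `ε` and a neighbourhood of `v0` with
nonzero denominators for `z ∈ ball (x 0) ε` and the first `n` steps; `cop_near` gives coprimality; then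
induction on `K`: `(fun z => it w n z)^[K] z = it w n ((..)^[K-1] z)`, all intermediate points in the ball.
-/

set_option autoImplicit false

open Filter Topology Polynomial Metric Set

namespace Pool.Agent.H35.RL

open Pool.Agent.H44.Fatou Pool.Agent.H32.BT Pool.Agent.H79.Eul Pool.Agent.H79.Par

theorem pull_one {d : ℕ} {w : E d} (hcop : IsCoprime (pol w.1) (pol w.2)) {z : ℂ} {n : ℕ}
    (hden : ∀ j < n, ev w.2 (it w j z) ≠ 0) (h : Att (Rf w) (it w n z : OnePoint ℂ)) :
    Att (Rf w) (z : OnePoint ℂ) := by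
  rw [← rat_it hden] at h
  exact (att_iter (rat_continuous hcop) _ n).1 h

theorem pull_near {d : ℕ} {v0 : E d} (hcop : IsCoprime (pol v0.1) (pol v0.2))
    (hdeg : max (pol v0.1).natDegree (pol v0.2).natDegree = d) (hd : 1 ≤ d) {x : ℕ → ℂ} {n : ℕ}
    (ho : Orb v0 x n) :
    ∃ ε : ℝ, 0 < ε ∧ ∀ᶠ w in 𝓝 v0, ∀ (K : ℕ) (z : ℂ),
      (∀ i ≤ K, (fun z => it w n z)^[i] z ∈ ball (x 0) ε) →
      Att (Rf w) (((fun z => it w n z)^[K] z : ℂ) : OnePoint ℂ) → Att (Rf w) (z : OnePoint ℂ) := by
  have h := orb_near ho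
  rw [nhds_prod_eq, Filter.eventually_prod_iff] at h
  obtain ⟨pa, hpa, pb, hpb, hab⟩ := h
  obtain ⟨r, hr, hrb⟩ := Metric.eventually_nhds_iff_ball.mp hpb
  refine ⟨r, hr, ?_⟩
  filter_upwards [hpa, cop_near hcop hdeg hd] with w hw hc K
  induction K with
  | zero =>
    intro z _ hz
    exact hz
  | succ K ih =>
    intro z hz hatt
    have hz0 : z ∈ ball (x 0) r := hz 0 (Nat.zero_le _)
    have h1 : Att (Rf w) ((it w n z : ℂ) : OnePoint ℂ) := by
      apply ih (it w n z)
      · intro i hi
        have h2 := hz (i + 1) (by omega)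
        rw [Function.iterate_succ_apply] at h2
        exact h2
      · rw [Function.iterate_succ_apply] at hatt
        exact hatt
    exact pull_one hc.1 (hab hw (hrb z hz0)) h1

end Pool.Agent.H35.RL
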