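import Mathlib

/-!
# Repelling landing: the linearising coordinate

`Lin F w lam φ ψ ρ`: `φ` is a linearising (Koenigs) coordinate of `F` at the fixed point `w` of
multiplier `lam`, and `ψ` is its inverse on `ball 0 ρ`.
-/

set_option autoImplicit false

open Filter Topology Metric Set

namespace Pool.Agent.H35.RL

structure Lin (F : ℂ → ℂ) (w lam : ℂ) (φ ψ : ℂ → ℂ) (ρ : ℝ) : Prop where
  hρ : 0 < ρ
  phi0 : φ w = 0
  phi_strict : HasStrictDerivAt φ 1 w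
  psi0 : ψ 0 = w
  psi_cont : ContinuousOn ψ (ball 0 ρ)
  phi_psi : ∀ X ∈ ball (0 : ℂ) ρ, φ (ψ X) = X
  psi_phi : ∀ᶠ z in 𝓝 w, ψ (φ z) = z
  phi_diff : ∀ X ∈ ball (0 : ℂ) ρ, DifferentiableAt ℂ φ (ψ X)
  lin : ∀ᶠ z in 𝓝 w, φ (F z) = lam * φ z

end Pool.Agent.H35.RL
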