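import Pool.Agent.H79.Par.XX
import Pool.Agent.H35.RL.Defs

/-!
# Repelling landing: definitions

`RA v0 v`: the points which are robustly attracted in the direction `v`. `kap`: first order distance
between the moving landing point of a critical orbit `x` (`x k` periodic of period `n`) and the moving
repelling periodic point.
-/

set_option autoImplicit false

open Filter Topology Polynomial Metric Set

namespace Pool.Agent.H35.RL

open Pool.Agent.H44.Fatou Pool.Agent.H32.BT Pool.Agent.H79.Eul Pool.Agent.H79.Par

/-- points near which everything is attracted, for all parameters near `v0` in the direction `v` -/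
def RA {d : ℕ} (v0 v : E d) : Set ℂ :=
  {z : ℂ | ∀ᶠ y : (E d × ℝ) × ℂ in flt v ×ˢ 𝓝 z, Att (Rf (pv v0 y.1)) (y.2 : OnePoint ℂ)}

/-- the transversality functional of a critical orbit `x` with `x (k + n) = x k` -/
noncomputable def kap {d : ℕ} (v0 v : E d) (x : ℕ → ℂ) (k n : ℕ) : ℂ :=
  XX v0 v k (x 0) + XX v0 v n (x k) / (trD v0 n (x k) - 1)

/-- the critical points near `c` -/
def crs {d : ℕ} (v0 : E d) : Set ((E d × ℝ) × ℂ) := {y | wv (pv v0 y.1) y.2 = 0}

/-- all critical points near `c` are attracted, for all parameters near `v0` in direction `v` and with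
size along the filter `R` -/
def CAtt {d : ℕ} (v0 v : E d) (R : Filter ℝ) (c : ℂ) : Prop :=
  ∀ᶠ y : (E d × ℝ) × ℂ in (𝓝 v ×ˢ R) ×ˢ 𝓝 c, wv (pv v0 y.1) y.2 = 0 →
    Att (Rf (pv v0 y.1)) (y.2 : OnePoint ℂ)

end Pool.Agent.H35.RL
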