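import Pool.Agent.H35.RL.Defs

/-!
# Module ConjFO: first order expansion in the linearising coordinate

PROOF. `F y.1 y.2 = F0 y.2 + h y.1 * ((F y.1 y.2 - F0 y.2) / h y.1)` (`h ≠ 0` eventually), `F0 y.2 → F0 w = w`
and `h → 0`, the quotient is convergent: this gives (2). For (1): `φ` is strictly differentiable at `w`
with derivative `1`: with `A = F y.1 y.2`, `B = F0 y.2`, both tending to `w`,
`φ A - φ B - (A - B) = o(‖A - B‖)` (`HasStrictDerivAt.isLittleO`, composed with the tendsto of `(A, B)`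
to `(w, w)`), `A - B = O(h)`; and `φ (F0 y.2) = lam * φ y.2` eventually (`L.lin` along the second
coordinate). So `(φ A - lam φ y.2) / h = (A - B) / h + o(1) → b`.
-/

set_option autoImplicit false

open Filter Topology Metric Set

namespace Pool.Agent.H35.RL

theorem conj_fo {T : Type} {l : Filter T} {F0 φ ψ : ℂ → ℂ} {w lam b : ℂ} {ρ : ℝ} {h : T → ℝ}
    {F : T → ℂ → ℂ} (L : Lin F0 w lam φ ψ ρ) (hc : ContinuousAt F0 w) (hw : F0 w = w)
    (hpos : ∀ᶠ τ in l, 0 < h τ) (hlim : Tendsto h l (𝓝 0))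
    (hF : Tendsto (fun y : T × ℂ => (F y.1 y.2 - F0 y.2) / (h y.1 : ℂ)) (l ×ˢ 𝓝 w) (𝓝 b)) :
    Tendsto (fun y : T × ℂ => (φ (F y.1 y.2) - lam * φ y.2) / (h y.1 : ℂ)) (l ×ˢ 𝓝 w) (𝓝 b) ∧
      Tendsto (fun y : T × ℂ => F y.1 y.2) (l ×ˢ 𝓝 w) (𝓝 w) := by
  have hpos' : ∀ᶠ y : T × ℂ in l ×ˢ 𝓝 w, 0 < h y.1 := tendsto_fst.eventually hpos
  have hne' : ∀ᶠ y : T × ℂ in l ×ˢ 𝓝 w, (h y.1 : ℂ) ≠ 0 := by
    filter_upwards [hpos'] with y hy
    exact Complex.ofReal_ne_zero.2 hy.ne'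
  have hlim' : Tendsto (fun y : T × ℂ => (h y.1 : ℂ)) (l ×ˢ 𝓝 w) (𝓝 0) := by
    have h1 : Tendsto (fun y : T × ℂ => h y.1) (l ×ˢ 𝓝 w) (𝓝 0) := hlim.comp tendsto_fst
    have h2 := (Complex.continuous_ofReal.tendsto 0).comp h1
    rw [Complex.ofReal_zero] at h2
    exact h2
  have hB : Tendsto (fun y : T × ℂ => F0 y.2) (l ×ˢ 𝓝 w) (𝓝 w) := by
    have h1 : Tendsto F0 (𝓝 w) (𝓝 w) := by
      have := hc.tendsto
      rwa [hw] at this
    exact h1.comp tendsto_snd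
  have hA : Tendsto (fun y : T × ℂ => F y.1 y.2) (l ×ˢ 𝓝 w) (𝓝 w) := by
    have h1 := hB.add (hlim'.mul hF)
    rw [zero_mul, add_zero] at h1
    refine h1.congr' ?_
    filter_upwards [hne'] with y hy
    rw [mul_div_cancel₀ _ hy]
    ring
  refine ⟨?_, hA⟩
  have hlin : ∀ᶠ y : T × ℂ in l ×ˢ 𝓝 w, φ (F0 y.2) = lam * φ y.2 :=
    tendsto_snd.eventually L.lin
  have hstr := L.phi_strict.hasStrictFDerivAt.isLittleO
  have hAB : Tendsto (fun y : T × ℂ => (F y.1 y.2, F0 y.2)) (l ×ˢ 𝓝 w) (𝓝 (w, w)) :=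
    hA.prodMk_nhds hB
  have h1 := hstr.comp_tendsto hAB
  have h2 : (fun y : T × ℂ => F y.1 y.2 - F0 y.2) =O[l ×ˢ 𝓝 w] (fun y : T × ℂ => (h y.1 : ℂ)) := by
    have h3 := hF.isBigO_one ℂ
    have h4 := h3.mul (Asymptotics.isBigO_refl (fun y : T × ℂ => (h y.1 : ℂ)) (l ×ˢ 𝓝 w))
    refine (h4.congr' ?_ ?_)
    · filter_upwards [hne'] with y hy
      rw [div_mul_cancel₀ _ hy]
    · filter_upwards with y
      rw [one_mul]
  have h5 := (h1.trans_isBigO h2).tendsto_div_nhds_zero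
  have h6 := h5.add hF
  rw [zero_add] at h6
  refine h6.congr' ?_
  filter_upwards [hne', hlin] with y hy hl
  rw [← hl]
  simp only [Function.comp_apply, ContinuousLinearMap.toSpanSingleton_apply, smul_eq_mul, mul_one]
  field_simp
  ring

end Pool.Agent.H35.RL
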