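import Mathlib

/-!
# Module Van: a nonzero polynomial is comparable along circles around a point

PROOF. `W = (X - C c) ^ m * U` with `U.eval c ≠ 0` (`Polynomial.exists_eq_pow_rootMultiplicity_mul_and_not_dvd`
or `Polynomial.eval_divByMonic_pow_rootMultiplicity_ne_zero`, `m = W.rootMultiplicity c`). Near `c`:
`‖U.eval c‖ / 2 ≤ ‖U.eval ζ‖ ≤ 2 ‖U.eval c‖`, so `‖W.eval ζ‖ ≤ ‖ζ - c‖ ^ m 2 ‖U c‖ ≤ ‖z - c‖ ^ m 2 ‖U c‖
≤ 4 ‖W.eval z‖`. `K = 4`.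
-/

set_option autoImplicit false

open Filter Topology Metric Set

namespace Pool.Agent.H35.RL

open Polynomial in
theorem van {W : Polynomial ℂ} (hW : W ≠ 0) (c : ℂ) :
    ∃ δ : ℝ, 0 < δ ∧ ∀ z ∈ ball c δ, ∀ ζ : ℂ, ‖ζ - c‖ ≤ ‖z - c‖ →
      ‖W.eval ζ‖ ≤ 4 * ‖W.eval z‖ := by
  obtain ⟨U, hU, hnd⟩ := Polynomial.exists_eq_pow_rootMultiplicity_mul_and_not_dvd W hW c
  have hUc : U.eval c ≠ 0 := fun h => hnd (Polynomial.dvd_iff_isRoot.2 h)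
  have hpos : 0 < ‖U.eval c‖ := norm_pos_iff.2 hUc
  have hcont : Tendsto (fun z => ‖U.eval z‖) (𝓝 c) (𝓝 ‖U.eval c‖) := U.continuous.norm.tendsto c
  have h1 : ∀ᶠ z in 𝓝 c, ‖U.eval c‖ / 2 < ‖U.eval z‖ := hcont.eventually_const_lt (by linarith)
  have h2 : ∀ᶠ z in 𝓝 c, ‖U.eval z‖ < 2 * ‖U.eval c‖ := hcont.eventually_lt_const (by linarith)
  obtain ⟨δ, hδ, h⟩ := Metric.eventually_nhds_iff_ball.1 (h1.and h2)
  refine ⟨δ, hδ, fun z hz ζ hζ => ?_⟩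
  obtain ⟨hz1, _⟩ := h z hz
  obtain ⟨_, hζ2⟩ := h ζ (by
    rw [mem_ball_iff_norm] at hz ⊢
    linarith)
  have e : ∀ w, ‖W.eval w‖ = ‖w - c‖ ^ W.rootMultiplicity c * ‖U.eval w‖ := by
    intro w
    conv_lhs => rw [hU]
    simp
  rw [e, e]
  have hp : ‖ζ - c‖ ^ W.rootMultiplicity c ≤ ‖z - c‖ ^ W.rootMultiplicity c :=
    pow_le_pow_left₀ (norm_nonneg _) hζ _
  have hq : 0 ≤ ‖z - c‖ ^ W.rootMultiplicity c := by positivity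
  calc ‖ζ - c‖ ^ W.rootMultiplicity c * ‖U.eval ζ‖
      ≤ ‖z - c‖ ^ W.rootMultiplicity c * (2 * ‖U.eval c‖) :=
        mul_le_mul hp hζ2.le (norm_nonneg _) hq
    _ ≤ ‖z - c‖ ^ W.rootMultiplicity c * (4 * ‖U.eval z‖) :=
        mul_le_mul_of_nonneg_left (by linarith) hq
    _ = 4 * (‖z - c‖ ^ W.rootMultiplicity c * ‖U.eval z‖) := by ring

end Pool.Agent.H35.RL
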