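import Pool.Agent.H35.RL.RDefs
import Pool.Agent.H35.RL.Van
import Pool.Agent.H79.Par.FO
import Pool.Agent.H44.Fatou.Coset

/-!
# Module CritVal: first order motion of the critical values

PROOF. `it w 1 z = ev w.1 z / ev w.2 z`. Split
`(it (pv) 1 z - it v0 1 c) / h = (it (pv) 1 c - it v0 1 c) / h + (it (pv) 1 z - it (pv) 1 c) / h`, `z = y.2`.
The first summand tends to `XX v0 v 1 c = xi v0 v c` (`fo` for the orbit `x 0 = c, x 1 = it v0 1 c`, `n = 1`,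
composed with `y ↦ (y.1, c)`; `XX v0 v 1 c` unfolds to `xi v0 v c + _ * 0`). The second tends to `0`:
by `pv_ev1`, `pv_ev2` (and the same for `dev`) `wv (pv v0 τ) ζ = wv v0 ζ + h * (..)` with the bracket
bounded for `τ.1` near `v`, `ζ` near `c`, `h ≤ 1`: so `‖wv (pv v0 τ) ζ - wv v0 ζ‖ ≤ C h`. If `z` is critical
(`wv (pv) z = 0`): `‖wv v0 z‖ ≤ C h`, and by `van` for `W = Wr (pol v0.1) (pol v0.2)`
(`W.eval ζ = wv v0 ζ`: `wv_cf`, `cf_pol`, `pol_deg`; `W ≠ 0`: `wr_ne_zero`, H44/Fatou/Coset) also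
`‖wv v0 ζ‖ ≤ 4 C h` for `‖ζ - c‖ ≤ ‖z - c‖`, so `‖wv (pv) ζ / ev (pv).2 ζ ^ 2‖ ≤ C' h` there
(`ev (pv).2` is bounded below near `c`: `ev2_cont`, `pv_lim2`). Mean value inequality on the ball
`closedBall c ‖z - c‖` (`Convex.norm_image_sub_le_of_norm_hasDerivWithin_le`, derivative
`tr_hasDerivAt_ev`): `‖it (pv) 1 z - it (pv) 1 c‖ ≤ C' h ‖z - c‖`; divide by `h`, `z → c`.
-/

set_option autoImplicit false

open Filter Topology Polynomial Metric Set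

namespace Pool.Agent.H35.RL

open Pool.Agent.H44.Fatou Pool.Agent.H32.BT Pool.Agent.H79.Eul Pool.Agent.H79.Par

/-- the first order change of the Wronskian -/
noncomputable def cvB {d : ℕ} (v0 : E d) (τ : E d × ℝ) (z : ℂ) : ℂ :=
  dev v0.1 z * ev τ.1.2 z + dev τ.1.1 z * ev v0.2 z - ev v0.1 z * dev τ.1.2 z -
    ev τ.1.1 z * dev v0.2 z + (τ.2 : ℂ) * wv τ.1 z

theorem cv_dev1 {d : ℕ} (v0 : E d) (τ : E d × ℝ) (z : ℂ) :
    dev (pv v0 τ).1 z = dev v0.1 z + τ.2 * dev τ.1.1 z := by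
  unfold dev pv
  rw [Finset.mul_sum, ← Finset.sum_add_distrib]
  refine Finset.sum_congr rfl fun i _ => ?_
  simp only [Prod.fst_add, Prod.smul_fst, Pi.add_apply, Pi.smul_apply, Complex.real_smul]
  ring

theorem cv_dev2 {d : ℕ} (v0 : E d) (τ : E d × ℝ) (z : ℂ) :
    dev (pv v0 τ).2 z = dev v0.2 z + τ.2 * dev τ.1.2 z := by
  unfold dev pv
  rw [Finset.mul_sum, ← Finset.sum_add_distrib]
  refine Finset.sum_congr rfl fun i _ => ?_
  simp only [Prod.snd_add, Prod.smul_snd, Pi.add_apply, Pi.smul_apply, Complex.real_smul]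
  ring

theorem cv_wv {d : ℕ} (v0 : E d) (τ : E d × ℝ) (z : ℂ) :
    wv (pv v0 τ) z = wv v0 z + τ.2 * cvB v0 τ z := by
  unfold wv cvB
  rw [pv_ev1, pv_ev2, cv_dev1, cv_dev2]
  unfold wv
  ring

theorem cvB_cont {d : ℕ} (v0 : E d) :
    Continuous (fun y : (E d × ℝ) × ℂ => cvB v0 y.1 y.2) := by
  unfold cvB wv
  have hA : ∀ p : Fin (d + 1) → ℂ, Continuous (fun y : (E d × ℝ) × ℂ => ev p y.2) := fun p =>
    ev_cont.comp (continuous_const.prodMk continuous_snd)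
  have hA' : ∀ p : Fin (d + 1) → ℂ, Continuous (fun y : (E d × ℝ) × ℂ => dev p y.2) := fun p =>
    dev_cont.comp (continuous_const.prodMk continuous_snd)
  have h11 : Continuous (fun y : (E d × ℝ) × ℂ => ev y.1.1.1 y.2) :=
    ev_cont.comp ((continuous_fst.comp (continuous_fst.comp continuous_fst)).prodMk continuous_snd)
  have h12 : Continuous (fun y : (E d × ℝ) × ℂ => ev y.1.1.2 y.2) :=
    ev_cont.comp ((continuous_snd.comp (continuous_fst.comp continuous_fst)).prodMk continuous_snd)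
  have h21 : Continuous (fun y : (E d × ℝ) × ℂ => dev y.1.1.1 y.2) :=
    dev_cont.comp ((continuous_fst.comp (continuous_fst.comp continuous_fst)).prodMk continuous_snd)
  have h22 : Continuous (fun y : (E d × ℝ) × ℂ => dev y.1.1.2 y.2) :=
    dev_cont.comp ((continuous_snd.comp (continuous_fst.comp continuous_fst)).prodMk continuous_snd)
  have hh : Continuous (fun y : (E d × ℝ) × ℂ => ((y.1.2 : ℝ) : ℂ)) :=
    Complex.continuous_ofReal.comp (continuous_snd.comp continuous_fst)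
  exact (((((hA' _).mul h12).add (h21.mul (hA _))).sub ((hA _).mul h22)).sub
    (h11.mul (hA' _))).add (hh.mul ((h21.mul h12).sub (h11.mul h22)))

theorem cv_flt_le {d : ℕ} (v : E d) (c : ℂ) :
    flt v ×ˢ 𝓝 c ≤ 𝓝 (((v, 0), c) : (E d × ℝ) × ℂ) := by
  rw [nhds_prod_eq, nhds_prod_eq]
  unfold Pool.Agent.H79.Eul.flt
  exact Filter.prod_mono (Filter.prod_mono le_rfl nhdsWithin_le_nhds) le_rfl

/-- uniformity on a disc -/
theorem cv_ball {T : Type} {l : Filter T} {c : ℂ} {p : T → ℂ → Prop}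
    (h : ∀ᶠ y : T × ℂ in l ×ˢ 𝓝 c, p y.1 y.2) :
    ∃ r : ℝ, 0 < r ∧ ∀ᶠ τ in l, ∀ ζ ∈ ball c r, p τ ζ := by
  obtain ⟨pa, ha, pb, hb, hab⟩ := Filter.eventually_prod_iff.1 h
  obtain ⟨r, hr, hsub⟩ := Metric.eventually_nhds_iff_ball.1 hb
  refine ⟨r, hr, ?_⟩
  filter_upwards [ha] with τ hτ ζ hζ
  exact hab hτ (hsub ζ hζ)

theorem cv_second {d : ℕ} {v0 v : E d} (hcop : IsCoprime (pol v0.1) (pol v0.2))
    (hdeg : 1 ≤ max (pol v0.1).natDegree (pol v0.2).natDegree) {c : ℂ} (hc : ev v0.2 c ≠ 0) :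
    Tendsto (fun y : (E d × ℝ) × ℂ => (it (pv v0 y.1) 1 y.2 - it (pv v0 y.1) 1 c) / (y.1.2 : ℂ))
      ((flt v ×ˢ 𝓝 c) ⊓ 𝓟 (crs v0)) (𝓝 0) := by
  set B0 : ℝ := ‖cvB v0 (v, 0) c‖ + 1 with hB0
  have hB0p : 0 < B0 := by positivity
  set e0 : ℝ := ‖ev v0.2 c‖ / 2 with he0
  have he0p : 0 < e0 := by
    have := norm_pos_iff.2 hc
    positivity
  have h1 : ∀ᶠ y : (E d × ℝ) × ℂ in flt v ×ˢ 𝓝 c, ‖cvB v0 y.1 y.2‖ < B0 := by
    have h2 := ((cvB_cont v0).norm.tendsto (((v, 0), c) : (E d × ℝ) × ℂ)).mono_left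
      (cv_flt_le v c)
    exact h2.eventually_lt_const (by simp [hB0])
  have h2 : ∀ᶠ y : (E d × ℝ) × ℂ in flt v ×ˢ 𝓝 c, e0 < ‖ev (pv v0 y.1).2 y.2‖ := by
    have h3 := ((ev2_cont (d := d)).norm.tendsto (v0, c)).comp (pv_lim2 v0 v c)
    have h4 : e0 < ‖ev v0.2 c‖ := by
      have := norm_pos_iff.2 hc
      rw [he0]
      linarith
    exact h3.eventually_const_lt h4
  obtain ⟨r, hr, hball⟩ := cv_ball (p := fun τ ζ => ‖cvB v0 τ ζ‖ < B0 ∧
    e0 < ‖ev (pv v0 τ).2 ζ‖) (h1.and h2)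
  have hW : Wr (pol v0.1) (pol v0.2) ≠ 0 := wr_ne_zero hcop hdeg
  have hWe : ∀ ζ : ℂ, (Wr (pol v0.1) (pol v0.2)).eval ζ = wv v0 ζ := by
    intro ζ
    rw [← wv_cf (pol_deg v0.1) (pol_deg v0.2), cf_pol, cf_pol]
  obtain ⟨δ, hδ, hvan⟩ := van hW c
  have hz : ∀ᶠ y : (E d × ℝ) × ℂ in flt v ×ˢ 𝓝 c, y.2 ∈ ball c (min r δ) :=
    (tendsto_snd (f := flt v) (g := 𝓝 c)).eventually (ball_mem_nhds c (lt_min hr hδ))
  have hτ : ∀ᶠ y : (E d × ℝ) × ℂ in flt v ×ˢ 𝓝 c, ∀ ζ ∈ ball c r, ‖cvB v0 y.1 ζ‖ < B0 ∧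
      e0 < ‖ev (pv v0 y.1).2 ζ‖ := (tendsto_fst (f := flt v) (g := 𝓝 c)).eventually hball
  have hpos : ∀ᶠ y : (E d × ℝ) × ℂ in flt v ×ˢ 𝓝 c, 0 < y.1.2 :=
    (tendsto_fst (f := flt v) (g := 𝓝 c)).eventually (Pool.Agent.H79.Par.flt_pos v)
  have hcrs : ∀ᶠ y : (E d × ℝ) × ℂ in (flt v ×ˢ 𝓝 c) ⊓ 𝓟 (crs v0), y ∈ crs v0 :=
    Filter.eventually_inf_principal.2 (Eventually.of_forall fun y hy => hy)
  have hle : (flt v ×ˢ 𝓝 c) ⊓ 𝓟 (crs v0) ≤ flt v ×ˢ 𝓝 c := inf_le_left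
  refine squeeze_zero_norm' (a := fun y : (E d × ℝ) × ℂ => 5 * B0 / e0 ^ 2 * ‖y.2 - c‖) ?_ ?_
  · filter_upwards [hle hz, hle hτ, hle hpos, hcrs] with y hy1 hy2 hy3 hy4
    set h := y.1.2 with hh
    set z := y.2 with hzz
    have hzr : z ∈ ball c r := ball_subset_ball (min_le_left _ _) hy1
    have hzδ : z ∈ ball c δ := ball_subset_ball (min_le_right _ _) hy1
    have hzn : ‖z - c‖ < r := by rwa [mem_ball, dist_eq_norm] at hzr
    have hwz : ‖wv v0 z‖ ≤ B0 * h := by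
      have e1 : wv (pv v0 y.1) z = 0 := hy4
      rw [cv_wv] at e1
      have e2 : wv v0 z = -((h : ℂ) * cvB v0 y.1 z) := by linear_combination e1
      rw [e2, norm_neg, norm_mul, Complex.norm_real, Real.norm_of_nonneg hy3.le, mul_comm]
      exact mul_le_mul_of_nonneg_right (hy2 z hzr).1.le hy3.le
    have hder : ∀ ζ ∈ closedBall c ‖z - c‖,
        ‖wv (pv v0 y.1) ζ / ev (pv v0 y.1).2 ζ ^ 2‖ ≤ 5 * B0 * h / e0 ^ 2 := by
      intro ζ hζ
      rw [mem_closedBall, dist_eq_norm] at hζ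
      have hζr : ζ ∈ ball c r := by
        rw [mem_ball, dist_eq_norm]
        linarith
      obtain ⟨f1, f2⟩ := hy2 ζ hζr
      have g1 := hvan z hzδ ζ hζ
      rw [hWe, hWe] at g1
      have g2 : ‖wv (pv v0 y.1) ζ‖ ≤ 5 * B0 * h := by
        rw [cv_wv]
        refine (norm_add_le _ _).trans ?_
        rw [norm_mul, Complex.norm_real, Real.norm_of_nonneg hy3.le]
        have g3 : h * ‖cvB v0 y.1 ζ‖ ≤ h * B0 := mul_le_mul_of_nonneg_left f1.le hy3.le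
        linarith
      rw [norm_div, norm_pow]
      have g4 : e0 ^ 2 ≤ ‖ev (pv v0 y.1).2 ζ‖ ^ 2 := pow_le_pow_left₀ he0p.le f2.le 2
      exact div_le_div₀ (by positivity) g2 (by positivity) g4
    have hmv : ‖it (pv v0 y.1) 1 z - it (pv v0 y.1) 1 c‖ ≤
        5 * B0 * h / e0 ^ 2 * ‖z - c‖ := by
      refine (convex_closedBall c ‖z - c‖).norm_image_sub_le_of_norm_hasDerivWithin_le
        (f := fun ζ => it (pv v0 y.1) 1 ζ)
        (f' := fun ζ => wv (pv v0 y.1) ζ / ev (pv v0 y.1).2 ζ ^ 2) ?_ hder ?_ ?_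
      · intro ζ hζ
        rw [mem_closedBall, dist_eq_norm] at hζ
        have hζr : ζ ∈ ball c r := by
          rw [mem_ball, dist_eq_norm]
          linarith
        have f2 := (hy2 ζ hζr).2
        have f3 : ev (pv v0 y.1).2 ζ ≠ 0 := by
          rw [← norm_pos_iff]
          linarith
        exact (tr_hasDerivAt_ev (pv v0 y.1) ζ f3).hasDerivWithinAt
      · exact mem_closedBall_self (norm_nonneg _)
      · rw [mem_closedBall, dist_eq_norm]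
    rw [norm_div, Complex.norm_real, Real.norm_of_nonneg hy3.le, div_le_iff₀ hy3]
    refine hmv.trans (le_of_eq ?_)
    ring
  · have h3 : Tendsto (fun y : (E d × ℝ) × ℂ => y.2) (flt v ×ˢ 𝓝 c) (𝓝 c) := tendsto_snd
    have h4 : Tendsto (fun y : (E d × ℝ) × ℂ => 5 * B0 / e0 ^ 2 * ‖y.2 - c‖)
        (flt v ×ˢ 𝓝 c) (𝓝 (5 * B0 / e0 ^ 2 * ‖c - c‖)) :=
      ((h3.sub_const c).norm).const_mul _
    rw [sub_self, norm_zero, mul_zero] at h4
    exact h4.mono_left hle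

theorem crit_val {d : ℕ} {v0 v : E d} (hcop : IsCoprime (pol v0.1) (pol v0.2))
    (hdeg : 1 ≤ max (pol v0.1).natDegree (pol v0.2).natDegree) {c : ℂ} (hc : ev v0.2 c ≠ 0) :
    Tendsto (fun y : (E d × ℝ) × ℂ => (it (pv v0 y.1) 1 y.2 - it v0 1 c) / (y.1.2 : ℂ))
      ((flt v ×ˢ 𝓝 c) ⊓ 𝓟 (crs v0)) (𝓝 (xi v0 v c)) := by
  have ho : Orb v0 (fun j => it v0 j c) 1 := by
    intro j hj
    have hj0 : j = 0 := by omega
    subst hj0
    exact ⟨hc, rfl⟩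
  have h1 := fo (v := v) ho
  have h2 : Tendsto (fun y : (E d × ℝ) × ℂ => (y.1, c)) (flt v ×ˢ 𝓝 c) (flt v ×ˢ 𝓝 c) :=
    tendsto_fst.prodMk tendsto_const_nhds
  have h3 : Tendsto (fun y : (E d × ℝ) × ℂ => (it (pv v0 y.1) 1 c - it v0 1 c) / (y.1.2 : ℂ))
      (flt v ×ˢ 𝓝 c) (𝓝 (xi v0 v c)) := by
    have h4 := h1.comp h2
    have e1 : XX v0 v 1 c = xi v0 v c := by
      simp [XX, it]
    have e2 : XX v0 v 1 ((fun j => it v0 j c) 0) = xi v0 v c := by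
      rw [← e1]
      rfl
    rw [e2] at h4
    exact h4
  have h5 := (h3.mono_left (inf_le_left (b := 𝓟 (crs v0)))).add (cv_second (v := v) hcop hdeg hc)
  rw [add_zero] at h5
  refine h5.congr fun y => ?_
  rw [← add_div]
  congr 1
  ring

end Pool.Agent.H35.RL
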