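import Pool.Agent.H35.RL.RDefs
import Pool.Agent.H79.Eul.Density

/-!
# Module DensSeq: density one from subsequences

PROOF. `tendsto_of_subseq_tendsto` (the filter `𝓝[>] 0` is countably generated): let `r : ℕ → ℝ` tend
to `𝓝[>] 0`; take `φ` from `H` for `r`. Show `volume (ball 0 1 ∩ bad (r (φ j))) → 0`: for `j : ℕ` let
`O j = interior {v | ∀ i ≥ j, v ∉ bad (r (φ i))}`, increasing. For almost every `v` there are a
neighbourhood `A` of `v` and `j` with `w ∉ bad (r (φ i))` for `w ∈ A`, `i ≥ j` (eventually in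
`𝓝 v ×ˢ map (r ∘ φ) atTop`: `Filter.eventually_prod_iff`, `eventually_map`, `eventually_atTop`), so
`v ∈ O j`. Now as in `density` (H79/Eul/Density.lean, copy the proof): `volume (ball 0 1 \ O j) → 0`
(`tendsto_measure_iInter_atTop`), and `ball 0 1 ∩ bad (r (φ i)) ⊆ ball 0 1 \ O j` for `i ≥ j`.
-/

set_option autoImplicit false

open Filter Topology Polynomial Metric Set

namespace Pool.Agent.H35.RL

open Pool.Agent.H44.Fatou Pool.Agent.H32.BT Pool.Agent.H79.Eul Pool.Agent.H79.Par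

open MeasureTheory in
theorem dens_seq {d : ℕ} {bad : ℝ → Set (E d)}
    (H : ∀ r : ℕ → ℝ, Tendsto r atTop (𝓝[>] 0) → ∃ φ : ℕ → ℕ, StrictMono φ ∧
      ∀ᵐ v : E d, ∀ᶠ τ : E d × ℝ in 𝓝 v ×ˢ map (r ∘ φ) atTop, τ.1 ∉ bad τ.2) :
    Tendsto (fun r : ℝ => volume (ball (0 : E d) 1 ∩ bad r)) (𝓝[>] 0) (𝓝 0) := by
  classical
  refine tendsto_of_subseq_tendsto fun r hr => ?_
  obtain ⟨φ, hφ, hae⟩ := H r hr
  refine ⟨φ, ?_⟩
  let O : ℕ → Set (E d) := fun j => interior {v | ∀ i : ℕ, j ≤ i → v ∉ bad (r (φ i))}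
  have hOopen : ∀ n, IsOpen (O n) := fun n => isOpen_interior
  have hOmono : ∀ m n : ℕ, m ≤ n → O m ⊆ O n := by
    intro m n hmn
    apply interior_mono
    intro v hv i hi
    exact hv i (hmn.trans hi)
  let S : Set (E d) := {v | ∀ᶠ τ : E d × ℝ in 𝓝 v ×ˢ map (r ∘ φ) atTop, τ.1 ∉ bad τ.2}
  have hS : volume Sᶜ = 0 := by
    rw [ae_iff] at hae
    exact hae
  have hcover : ∀ v ∈ S, ∃ n, v ∈ O n := by
    intro v hv
    have h1 : ∀ᶠ τ : E d × ℝ in 𝓝 v ×ˢ map (r ∘ φ) atTop, τ.1 ∉ bad τ.2 := hv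
    rw [Filter.eventually_prod_iff] at h1
    obtain ⟨pa, hpa, pb, hpb, hab⟩ := h1
    obtain ⟨N, hN, hNopen, hvN⟩ := _root_.eventually_nhds_iff.1 hpa
    rw [eventually_map, eventually_atTop] at hpb
    obtain ⟨n, hn⟩ := hpb
    refine ⟨n, ?_⟩
    rw [mem_interior]
    refine ⟨N, ?_, hNopen, hvN⟩
    intro w hw i hi
    exact hab (hN w hw) (hn i hi)
  let D : ℕ → Set (E d) := fun n => ball (0 : E d) 1 \ O n
  have hDmeas : ∀ n, NullMeasurableSet (D n) volume := fun n =>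
    (measurableSet_ball.diff (hOopen n).measurableSet).nullMeasurableSet
  have hDanti : Antitone D := fun m n hmn => sdiff_subset_sdiff_right (hOmono m n hmn)
  have hDfin : ∃ n, volume (D n) ≠ ⊤ :=
    ⟨0, ((measure_mono sdiff_subset).trans_lt measure_ball_lt_top).ne⟩
  have hDlim := tendsto_measure_iInter_atTop hDmeas hDanti hDfin
  have hD0 : volume (⋂ n, D n) = 0 := by
    refine measure_mono_null ?_ hS
    intro v hv hvS
    obtain ⟨n, hn⟩ := hcover v hvS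
    exact (mem_iInter.1 hv n).2 hn
  rw [hD0] at hDlim
  rw [ENNReal.tendsto_nhds_zero] at hDlim ⊢
  intro ε hε
  obtain ⟨n, hn⟩ := (hDlim ε hε).exists
  filter_upwards [eventually_ge_atTop n] with i hi
  refine le_trans (measure_mono ?_) hn
  rintro v ⟨hv1, hv2⟩
  refine ⟨hv1, fun hv3 => ?_⟩
  exact (interior_subset hv3) i hi hv2

end Pool.Agent.H35.RL
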