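import Pool.Agent.H35.RL.RDefs
import Pool.Agent.H79.Par.CopNear
import Pool.Agent.H79.Par.It
import Pool.Agent.H79.Eul.Cpt

/-!
# Module HypLocal: hyperbolicity from the critical points of the limit map

PROOF. `𝓝 v ×ˢ R ≤ flt v`, so `pv v0 → v0` along it (`pv_lim`); `cop_near` gives coprimality and the
degree. `(w, u) ↦ wv (rv w) u` is continuous (`rv2_cont`, H44/Fatou/Mob2) and not `0` at `(v0, 0)`: there
are `ε > 0` and a neighbourhood of `v0` on which `wv (rv w) u ≠ 0` for `‖u‖ < ε`; so (1) infinity is not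
critical for `Rf w` (`crit_infty`, H44/Fatou/Basic: `Wr` of the reflected polynomials at `0` is
`wv (rv w) 0` when `dg = d`; `cf_reflect`, `wv_cf`), (2) `wv w z ≠ 0` for `‖z‖ > 1 / ε` (`wv_rev` in
H44/Fatou/Mob2). On the compact `closedBall 0 (1 / ε)` use `ev_compact` (H79/Eul/Cpt) with
`l = 𝓝 v ×ˢ R`, `p τ z := wv (pv v0 τ) z = 0 → Att (Rf (pv v0 τ)) z`: at `z` with `wv v0 z = 0` it is `h`, at
`z` with `wv v0 z ≠ 0` eventually `wv (pv v0 τ) z' ≠ 0` (`wv_cont`, `pv_lim2`). A finite critical point `c` of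
`Rf w` has `wv w c = 0` (`wr_inj` in H44/Fatou/Basic).
-/

set_option autoImplicit false

open Filter Topology Polynomial Metric Set

namespace Pool.Agent.H35.RL

open Pool.Agent.H44.Fatou Pool.Agent.H32.BT Pool.Agent.H79.Eul Pool.Agent.H79.Par

private theorem wl_aux {d : ℕ} {v0 : E d} {z : ℂ} {T : Type} {l : Filter T} {f : T → E d}
    {g : T → ℂ} (h : Tendsto (fun y => (f y, g y)) l (𝓝 (v0, z))) :
    Tendsto (fun y => wv (f y) (g y)) l (𝓝 (wv v0 z)) := by
  have h1 : Tendsto (fun x : E d × ℂ => wv x.1 x.2) (𝓝 (v0, z)) (𝓝 (wv v0 z)) :=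
    (wv_cont (d := d)).tendsto (v0, z)
  have h2 := Tendsto.comp h1 h
  exact h2

theorem hyp_local {d : ℕ} (hd : 2 ≤ d) {v0 v : E d} (hcop : IsCoprime (pol v0.1) (pol v0.2))
    (hdeg : max (pol v0.1).natDegree (pol v0.2).natDegree = d) {R : Filter ℝ} (hR : R ≤ 𝓝[>] 0)
    (hinf : wv (rv v0) 0 ≠ 0) (h : ∀ c : ℂ, wv v0 c = 0 → CAtt v0 v R c) :
    ∀ᶠ τ in 𝓝 v ×ˢ R, HypDeg (pv v0 τ) := by
  have hRf : 𝓝 v ×ˢ R ≤ flt v := Filter.prod_mono le_rfl hR
  have hlim : Tendsto (pv v0) (𝓝 v ×ˢ R) (𝓝 v0) := (pv_lim v0 v).mono_left hRf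
  have h1 := hlim.eventually (cop_near hcop hdeg (by omega))
  obtain ⟨r, hr, h2⟩ := no_crit_infty v0 hinf
  have h2' := hlim.eventually h2
  have h3 : ∀ᶠ τ in 𝓝 v ×ˢ R, ∀ z ∈ closedBall (0 : ℂ) r, wv (pv v0 τ) z = 0 →
      Att (Rf (pv v0 τ)) (z : OnePoint ℂ) := by
    apply ev_compact (isCompact_closedBall (0 : ℂ) r)
      (p := fun (τ : E d × ℝ) (z : ℂ) => wv (pv v0 τ) z = 0 → Att (Rf (pv v0 τ)) (z : OnePoint ℂ))
    intro z _
    by_cases hz : wv v0 z = 0
    · exact h z hz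
    · have h4 : Tendsto (fun y : (E d × ℝ) × ℂ => wv (pv v0 y.1) y.2) ((𝓝 v ×ˢ R) ×ˢ 𝓝 z)
          (𝓝 (wv v0 z)) :=
        wl_aux ((pv_lim2 v0 v z).mono_left (Filter.prod_mono hRf le_rfl))
      filter_upwards [h4.eventually_ne hz] with y hy h5
      exact absurd h5 hy
  filter_upwards [h1, h2', h3] with τ a1 a2 a3
  refine ⟨a1.1, a1.2, ?_⟩
  intro c hc
  induction c using OnePoint.rec with
  | infty =>
    exfalso
    have h5 := crit_infty hc
    have hdg : dg (pol (pv v0 τ).1) (pol (pv v0 τ).2) = d := a1.2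
    have hr1 : (reflect d (pol (pv v0 τ).1)).natDegree ≤ d := by
      rw [natDegree_le_iff_coeff_eq_zero]
      intro N hN
      rw [coeff_reflect, revAt_eq_self_of_lt hN]
      exact coeff_eq_zero_of_natDegree_lt (lt_of_le_of_lt (pol_deg _) hN)
    have hr2 : (reflect d (pol (pv v0 τ).2)).natDegree ≤ d := by
      rw [natDegree_le_iff_coeff_eq_zero]
      intro N hN
      rw [coeff_reflect, revAt_eq_self_of_lt hN]
      exact coeff_eq_zero_of_natDegree_lt (lt_of_le_of_lt (pol_deg _) hN)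
    rw [hdg, ← wv_cf (d := d) hr1 hr2, cf_reflect, cf_reflect, cf_pol, cf_pol] at h5
    exact a2.2 h5
  | coe z =>
    have h5 := crit_coe hc
    rw [← wv_cf (pol_deg _) (pol_deg _), cf_pol, cf_pol] at h5
    by_cases hz : z ∈ closedBall (0 : ℂ) r
    · exact a3 z hz h5
    · refine absurd h5 (a2.1 z ?_)
      rw [mem_closedBall, dist_zero_right, not_le] at hz
      exact hz

end Pool.Agent.H35.RL
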