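import Pool.Agent.H35.RL.Cocyc
import Pool.Agent.H61.TT.Main2
import Pool.Agent.H79.Par.GDefs

/-!
# Module KapNe: the transversality functional is not zero (repelling case)

PROOF. Let `j0 < k` be the largest index `j < k` with `wv v0 (x j) = 0` (it exists: `j = 0`;
`Finset.exists_max_image` or `Nat.findGreatest`). By `kap_shift` (for `j0 ≥ 1`; trivial for `j0 = 0`)
`kap v0 v x k n = kap v0 v (fun i => x (j0 + i)) (k - j0) n`. Put `c0 = x j0`, `x' i = x (j0 + 1 + i)`,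
`k' = k - j0 - 1`. `tt2` (H61/TT/Main2) with the non repelling cycle of `hnr` gives `v` with
`trD v0 k' (x' 0) * xi v0 v c0 + XX v0 v k' (x' 0) - XX v0 v n (x' k') / (1 - trD v0 n (x' k')) ≠ 0`. By
`XX_cocycle` (`m = k'`, `k = 1`; `it v0 1 c0 = x' 0`; `XX v0 v 1 c0 = xi v0 v c0 + _ * 0`) the first two terms
are `XX v0 v (k' + 1) c0 = XX v0 v (k - j0) (x j0)`, so the expression is `kap` (`-A / (1 - l) = A / (l - 1)`).
Hypothesis `trD v0 (k' + n) (x' 0) ≠ 0` of `tt2`: the factors are `wv v0 (x j) / ev v0.2 (x j) ^ 2`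
(`it v0 i (x' 0) = x' i`, `orb_it`), not zero for `j0 < j < k` by maximality, and for `k ≤ j < k + n` because
their product `trD v0 n (x k)` has norm `> 1`.
-/

set_option autoImplicit false

open Filter Topology Polynomial Metric Set

namespace Pool.Agent.H35.RL

open Pool.Agent.H44.Fatou Pool.Agent.H32.BT Pool.Agent.H79.Eul Pool.Agent.H79.Par

theorem kn_shift {d : ℕ} {v0 : E d} {y : ℕ → ℂ} (hy : ∀ j, Orb v0 y j) (j n : ℕ) :
    it v0 n (y j) = y (j + n) := by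
  have h1 : Orb v0 (fun i => y (j + i)) n := by
    intro i hi
    exact hy (j + i + 1) (j + i) (by omega)
  have h2 := orb_it h1 n le_rfl
  simpa using h2

theorem kap_ne {d : ℕ} (hd : 2 ≤ d) {v0 : E d} (hcop : IsCoprime (pol v0.1) (pol v0.2))
    (hdeg : max (pol v0.1).natDegree (pol v0.2).natDegree = d) {x : ℕ → ℂ} {k n : ℕ}
    (ho : ∀ j, Orb v0 x j) (hk : 1 ≤ k) (hn : 0 < n) (hper : x (k + n) = x k)
    (hc : wv v0 (x 0) = 0) (hlam : 1 < ‖trD v0 n (x k)‖) (hnr : NonRep v0) :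
    ∃ v, kap v0 v x k n ≠ 0 := by
  classical
  obtain ⟨j0, hj0k, hj0w, hmax⟩ : ∃ j0 < k, wv v0 (x j0) = 0 ∧
      ∀ j, j0 < j → j < k → wv v0 (x j) ≠ 0 := by
    have hP0 : (fun j => j < k ∧ wv v0 (x j) = 0) 0 := ⟨by omega, hc⟩
    have hspec := Nat.findGreatest_spec (P := fun j => j < k ∧ wv v0 (x j) = 0) (Nat.zero_le k) hP0
    refine ⟨Nat.findGreatest (fun j => j < k ∧ wv v0 (x j) = 0) k, hspec.1, hspec.2, ?_⟩
    intro j hj1 hj2 hj3
    exact Nat.findGreatest_is_greatest hj1 hj2.le ⟨hj2, hj3⟩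
  obtain ⟨k', hk'⟩ : ∃ k', j0 + 1 + k' = k := ⟨k - j0 - 1, by omega⟩
  have hox : Orb v0 (fun i => x (j0 + 1 + i)) (k' + n) := by
    intro j _
    exact ho (j0 + 1 + j + 1) (j0 + 1 + j) (by omega)
  have hc2 : ev v0.2 (x j0) ≠ 0 := (ho (j0 + 1) j0 (by omega)).1
  have hx0 : x (j0 + 1) = ev v0.1 (x j0) / ev v0.2 (x j0) := (ho (j0 + 1) j0 (by omega)).2.symm
  have hkk : j0 + 1 + (k' + n) = k + n := by omega
  have hne : trD v0 (k' + n) (x (j0 + 1)) ≠ 0 := by
    have hn0 : trD v0 n (x k) ≠ 0 := by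
      intro h
      rw [h, norm_zero] at hlam
      linarith
    unfold trD at hn0 ⊢
    rw [Finset.prod_ne_zero_iff] at hn0 ⊢
    intro i hi
    rw [Finset.mem_range] at hi
    rw [kn_shift ho]
    have hden : ev v0.2 (x (j0 + 1 + i)) ^ 2 ≠ 0 :=
      pow_ne_zero 2 (ho (j0 + 1 + i + 1) (j0 + 1 + i) (by omega)).1
    by_cases hik : i < k'
    · exact div_ne_zero (hmax _ (by omega) (by omega)) hden
    · have h1 := hn0 (i - k') (Finset.mem_range.2 (by omega))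
      rw [kn_shift ho] at h1
      have h2 : k + (i - k') = j0 + 1 + i := by omega
      rw [h2] at h1
      exact h1
  obtain ⟨y, m, hm, hy, hym, hmul⟩ := hnr
  have hpx : x (j0 + 1 + (k' + n)) = x (j0 + 1 + k') := by
    rw [hkk, hk', hper]
  have hrep : 1 < ‖trD v0 n (x (j0 + 1 + k'))‖ := by
    rw [hk']
    exact hlam
  obtain ⟨v, hv⟩ := Pool.Agent.H61.TT.tt2 hd hcop hdeg hj0w hc2 (fun i => x (j0 + 1 + i)) hn hx0
    hox hpx hne hrep y hm hy hym hmul
  refine ⟨v, fun hz => hv ?_⟩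
  rw [kap_shift v0 v hj0k (ho k) hj0w] at hz
  have e1 : k - j0 = k' + 1 := by omega
  rw [e1] at hz
  unfold kap at hz
  have e2 : j0 + (k' + 1) = k := by omega
  have hz' : XX v0 v (k' + 1) (x j0) + XX v0 v n (x k) / (trD v0 n (x k) - 1) = 0 := by
    have h3 := hz
    simp only [Nat.add_zero, e2] at h3
    exact h3
  have e3 := XX_cocycle v0 v k' 1 (x j0)
  have e4 : it v0 1 (x j0) = x (j0 + 1) := kn_shift ho j0 1
  have e5 : XX v0 v 1 (x j0) = xi v0 v (x j0) := by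
    simp [XX, it]
  rw [e4, e5] at e3
  rw [e3] at hz'
  show trD v0 k' (x (j0 + 1 + 0)) * xi v0 v (x j0) + XX v0 v k' (x (j0 + 1 + 0)) -
    XX v0 v n (x (j0 + 1 + k')) / (1 - trD v0 n (x (j0 + 1 + k'))) = 0
  rw [hk', Nat.add_zero]
  have e6 : XX v0 v n (x k) / (1 - trD v0 n (x k)) = -(XX v0 v n (x k) / (trD v0 n (x k) - 1)) := by
    rw [← neg_sub, div_neg]
  rw [e6]
  linear_combination hz'

end Pool.Agent.H35.RL
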