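import Pool.Agent.H35.RL.Defs

/-!
# Module KoePhi: the Koenigs function of a contraction

PROOF. Choose `r' ≤ r` with `q := ‖lam‖⁻¹ + C r'` satisfying `q < 1` and `‖lam‖ q ^ 2 < 1` (possible: at
`r' = 0` the values are `‖lam‖⁻¹ < 1` and `‖lam‖⁻¹ < 1`). For `z ∈ ball w r'`: `‖G z - w‖ ≤ q ‖z - w‖`, so
`G^[m] z ∈ ball w r'` and `‖G^[m] z - w‖ ≤ q ^ m ‖z - w‖`. Put
`a m z = lam ^ m * (G^[m] z - w)` and `b m z = a (m + 1) z - a m z
  = lam ^ (m + 1) * (G (G^[m] z) - w - (G^[m] z - w) / lam)`. Then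
`‖b m z‖ ≤ ‖lam‖ (‖lam‖ q ^ 2) ^ m C ‖z - w‖ ^ 2`, summable. `φ z := (z - w) + ∑' m, b m z`.
Differentiability: `differentiableOn_tsum_of_summable_norm` (each `b m` is differentiable on the ball:
composition, `G` maps the ball to itself). `φ w = 0`. `HasDerivAt φ 1 w`: `‖φ z - (z - w)‖ ≤ K ‖z - w‖ ^ 2`.
`φ z` is the limit of `a m z` (`HasSum` of the telescoping series: `HasSum.tendsto_sum_nat` and
`Finset.sum_range_sub`), and `a m (G z) = a (m + 1) z / lam`, so `φ (G z) = φ z / lam` by uniqueness of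
limits.
-/

set_option autoImplicit false

open Filter Topology Metric Set

namespace Pool.Agent.H35.RL

theorem koe_phi {G : ℂ → ℂ} {w lam : ℂ} {r C : ℝ} (hlam : 1 < ‖lam‖) (hr : 0 < r) (hC : 0 ≤ C)
    (hGw : G w = w) (hG : DifferentiableOn ℂ G (ball w r))
    (hest : ∀ z ∈ ball w r, ‖G z - w - (z - w) / lam‖ ≤ C * ‖z - w‖ ^ 2) :
    ∃ (φ : ℂ → ℂ) (r' : ℝ), 0 < r' ∧ r' ≤ r ∧ φ w = 0 ∧ DifferentiableOn ℂ φ (ball w r') ∧
      HasDerivAt φ 1 w ∧ ∀ z ∈ ball w r', φ (G z) = φ z / lam := by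
  set L : ℝ := ‖lam‖ with hL
  have hL0 : 0 < L := by linarith
  have hlam0 : lam ≠ 0 := by
    intro h; rw [hL, h, norm_zero] at hL0; exact lt_irrefl _ hL0
  have hLinv : L⁻¹ < 1 := inv_lt_one_of_one_lt₀ hlam
  -- choice of the radius
  obtain ⟨r', hr'0, hr'r, hq1, hq2⟩ : ∃ r' : ℝ, 0 < r' ∧ r' ≤ r ∧ L⁻¹ + C * r' < 1 ∧
      L * (L⁻¹ + C * r') ^ 2 < 1 := by
    have e1 : ∀ᶠ s in 𝓝 (0 : ℝ), L⁻¹ + C * s < 1 := by
      have : Tendsto (fun s : ℝ => L⁻¹ + C * s) (𝓝 0) (𝓝 (L⁻¹ + C * 0)) :=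
        (by fun_prop : Continuous fun s : ℝ => L⁻¹ + C * s).tendsto 0
      exact this.eventually_lt_const (by simpa using hLinv)
    have e2 : ∀ᶠ s in 𝓝 (0 : ℝ), L * (L⁻¹ + C * s) ^ 2 < 1 := by
      have : Tendsto (fun s : ℝ => L * (L⁻¹ + C * s) ^ 2) (𝓝 0) (𝓝 (L * (L⁻¹ + C * 0) ^ 2)) :=
        (by fun_prop : Continuous fun s : ℝ => L * (L⁻¹ + C * s) ^ 2).tendsto 0
      refine this.eventually_lt_const ?_
      have : L * (L⁻¹ + C * 0) ^ 2 = L⁻¹ := by field_simp; simp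
      rw [this]; exact hLinv
    have e3 : ∀ᶠ s in 𝓝 (0 : ℝ), s < r := eventually_lt_nhds hr
    have e4 := ((e1.and (e2.and e3)).filter_mono nhdsWithin_le_nhds :
      ∀ᶠ s in 𝓝[>] (0 : ℝ), _)
    obtain ⟨s, ⟨h1, h2, h3⟩, h4⟩ := (e4.and self_mem_nhdsWithin).exists
    exact ⟨s, h4, h3.le, h1, h2⟩
  set q : ℝ := L⁻¹ + C * r' with hq
  have hq0 : 0 < q := by positivity
  have hsub : ball w r' ⊆ ball w r := ball_subset_ball hr'r
  have h1 : ∀ z ∈ ball w r', ‖G z - w‖ ≤ q * ‖z - w‖ := by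
    intro z hz
    have hz' : ‖z - w‖ < r' := by rwa [mem_ball, dist_eq_norm] at hz
    have ha := hest z (hsub hz)
    have hb : ‖(z - w) / lam‖ = L⁻¹ * ‖z - w‖ := by
      rw [norm_div, ← hL]; field_simp
    have hc : G z - w = (G z - w - (z - w) / lam) + (z - w) / lam := by ring
    calc ‖G z - w‖ ≤ ‖G z - w - (z - w) / lam‖ + ‖(z - w) / lam‖ := by
          conv_lhs => rw [hc]
          exact norm_add_le _ _
      _ ≤ C * ‖z - w‖ ^ 2 + L⁻¹ * ‖z - w‖ := by rw [hb]; linarith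
      _ ≤ q * ‖z - w‖ := by
          have : C * ‖z - w‖ ^ 2 ≤ C * r' * ‖z - w‖ := by
            have : C * (‖z - w‖ * ‖z - w‖) ≤ C * (r' * ‖z - w‖) :=
              mul_le_mul_of_nonneg_left (mul_le_mul_of_nonneg_right hz'.le (norm_nonneg _)) hC
            nlinarith
          rw [hq]; nlinarith
  have h2 : ∀ m : ℕ, ∀ z ∈ ball w r', G^[m] z ∈ ball w r' ∧ ‖G^[m] z - w‖ ≤ q ^ m * ‖z - w‖ := by
    intro m
    induction m with
    | zero => intro z hz; exact ⟨hz, by simp⟩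
    | succ m ih =>
      intro z hz
      obtain ⟨i1, i2⟩ := ih z hz
      rw [Function.iterate_succ_apply']
      have h3 := h1 _ i1
      constructor
      · rw [mem_ball, dist_eq_norm]
        have h4 : ‖G^[m] z - w‖ < r' := by rwa [mem_ball, dist_eq_norm] at i1
        calc ‖G (G^[m] z) - w‖ ≤ q * ‖G^[m] z - w‖ := h3
          _ ≤ 1 * ‖G^[m] z - w‖ := mul_le_mul_of_nonneg_right hq1.le (norm_nonneg _)
          _ < r' := by rw [one_mul]; exact h4
      · calc ‖G (G^[m] z) - w‖ ≤ q * ‖G^[m] z - w‖ := h3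
          _ ≤ q * (q ^ m * ‖z - w‖) := mul_le_mul_of_nonneg_left i2 hq0.le
          _ = q ^ (m + 1) * ‖z - w‖ := by ring
  have hdiffit : ∀ m : ℕ, DifferentiableOn ℂ (G^[m]) (ball w r') := by
    intro m
    induction m with
    | zero => exact differentiableOn_id
    | succ m ih =>
      rw [Function.iterate_succ']
      exact (hG.mono hsub).comp ih fun z hz => (h2 m z hz).1
  let b : ℕ → ℂ → ℂ := fun m z => lam ^ (m + 1) * (G (G^[m] z) - w - (G^[m] z - w) / lam)
  have hb_diff : ∀ m, DifferentiableOn ℂ (b m) (ball w r') := by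
    intro m
    have hGG : DifferentiableOn ℂ (fun z => G (G^[m] z)) (ball w r') :=
      (hG.mono hsub).comp (hdiffit m) fun z hz => (h2 m z hz).1
    exact ((hGG.sub_const w).sub (((hdiffit m).sub_const w).div_const lam)).const_mul _
  have hb_le : ∀ m, ∀ z ∈ ball w r', ‖b m z‖ ≤ (L * q ^ 2) ^ m * (L * C * ‖z - w‖ ^ 2) := by
    intro m z hz
    obtain ⟨i1, i2⟩ := h2 m z hz
    have h3 := hest _ (hsub i1)
    calc ‖b m z‖ = L ^ (m + 1) * ‖G (G^[m] z) - w - (G^[m] z - w) / lam‖ := by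
          simp only [b, norm_mul, norm_pow, hL]
      _ ≤ L ^ (m + 1) * (C * ‖G^[m] z - w‖ ^ 2) :=
          mul_le_mul_of_nonneg_left h3 (by positivity)
      _ ≤ L ^ (m + 1) * (C * (q ^ m * ‖z - w‖) ^ 2) := by
          gcongr
      _ = (L * q ^ 2) ^ m * (L * C * ‖z - w‖ ^ 2) := by
          rw [mul_pow, mul_pow, ← pow_mul, ← pow_mul, mul_comm 2 m, pow_succ]; ring
  have hLq0 : 0 ≤ L * q ^ 2 := by positivity
  have hgeo : Summable fun m : ℕ => (L * q ^ 2) ^ m := summable_geometric_of_lt_one hLq0 hq2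
  have hb_le' : ∀ m, ∀ z ∈ ball w r', ‖b m z‖ ≤ (L * q ^ 2) ^ m * (L * C * r' ^ 2) := by
    intro m z hz
    refine (hb_le m z hz).trans ?_
    have hz' : ‖z - w‖ < r' := by rwa [mem_ball, dist_eq_norm] at hz
    gcongr
  have hsum : ∀ z ∈ ball w r', Summable fun m => b m z := fun z hz =>
    Summable.of_norm_bounded (hgeo.mul_right _) fun m => hb_le' m z hz
  have hS : DifferentiableOn ℂ (fun z => ∑' m, b m z) (ball w r') :=
    Complex.differentiableOn_tsum_of_summable_norm (hgeo.mul_right _) hb_diff isOpen_ball hb_le'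
  have hwb : w ∈ ball w r' := mem_ball_self hr'0
  have hSw : ∑' m, b m w = 0 := by
    have : ∀ m, b m w = 0 := by
      intro m
      simp only [b, Function.iterate_fixed hGw, hGw, sub_self, zero_div, mul_zero]
    simp [this]
  set φ : ℂ → ℂ := fun z => (z - w) + ∑' m, b m z with hφ
  have hlim : ∀ z ∈ ball w r', Tendsto (fun m : ℕ => lam ^ m * (G^[m] z - w)) atTop (𝓝 (φ z)) := by
    intro z hz
    have ht := (hsum z hz).hasSum.tendsto_sum_nat
    have hb_eq : ∀ m, b m z = lam ^ (m + 1) * (G^[m + 1] z - w) - lam ^ m * (G^[m] z - w) := by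
      intro m
      simp only [b, Function.iterate_succ_apply']
      field_simp
      ring
    have hfs : ∀ n : ℕ, ∑ m ∈ Finset.range n, b m z = lam ^ n * (G^[n] z - w) - (z - w) := by
      intro n
      rw [Finset.sum_congr rfl fun m _ => hb_eq m,
        Finset.sum_range_sub (fun m => lam ^ m * (G^[m] z - w))]
      simp
    have h3 : (fun m : ℕ => lam ^ m * (G^[m] z - w)) =
        fun m => (z - w) + ∑ i ∈ Finset.range m, b i z := by
      funext m; rw [hfs]; ring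
    rw [h3]
    exact ht.const_add _
  refine ⟨φ, r', hr'0, hr'r, ?_, ?_, ?_, ?_⟩
  · simp [hφ, hSw]
  · exact (differentiableOn_id.sub_const w).add hS
  · -- the derivative at `w`
    have hSd : HasDerivAt (fun z => ∑' m, b m z) 0 w := by
      rw [hasDerivAt_iff_isLittleO]
      have hO : (fun z => ∑' m, b m z - ∑' m, b m w - (z - w) • (0 : ℂ)) =O[𝓝 w]
          fun z => ‖z - w‖ ^ 2 := by
        refine Asymptotics.IsBigO.of_bound ((∑' m : ℕ, (L * q ^ 2) ^ m) * (L * C)) ?_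
        filter_upwards [isOpen_ball.mem_nhds hwb] with z hz
        rw [hSw, sub_zero, smul_zero, sub_zero]
        have h5 : Summable fun m : ℕ => (L * q ^ 2) ^ m * (L * C * ‖z - w‖ ^ 2) :=
          hgeo.mul_right _
        calc ‖∑' m, b m z‖ ≤ ∑' m : ℕ, (L * q ^ 2) ^ m * (L * C * ‖z - w‖ ^ 2) :=
              tsum_of_norm_bounded h5.hasSum fun m => hb_le m z hz
          _ = (∑' m : ℕ, (L * q ^ 2) ^ m) * (L * C * ‖z - w‖ ^ 2) := tsum_mul_right
          _ = (∑' m : ℕ, (L * q ^ 2) ^ m) * (L * C) * ‖‖z - w‖ ^ 2‖ := by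
              rw [Real.norm_of_nonneg (by positivity)]; ring
      exact hO.trans_isLittleO (Asymptotics.isLittleO_pow_sub_sub w (by norm_num))
    have h6 : HasDerivAt (fun z => (z - w) + ∑' m, b m z) (1 + 0) w :=
      ((hasDerivAt_id w).sub_const w).add hSd
    rw [add_zero] at h6
    exact h6
  · intro z hz
    have hGz : G z ∈ ball w r' := (h2 1 z hz).1
    have l1 := hlim (G z) hGz
    have l2 : Tendsto (fun m : ℕ => lam ^ m * (G^[m] (G z) - w)) atTop (𝓝 (φ z / lam)) := by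
      have l3 := ((hlim z hz).comp (tendsto_add_atTop_nat 1)).div_const lam
      refine l3.congr fun m => ?_
      simp only [Function.comp, Function.iterate_succ_apply]
      field_simp
      ring
    exact tendsto_nhds_unique l1 l2

end Pool.Agent.H35.RL
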