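import Pool.Agent.H35.RL.KoeInv
import Pool.Agent.H35.RL.KoePhi

/-!
# Module Koe: the linearising coordinate exists

PROOF. Take `G` from `koe_inv` and `φ` from `koe_phi`. `φ` is differentiable on the open ball
`ball w r'`, so analytic, so `HasStrictDerivAt φ 1 w` (`AnalyticAt.hasStrictDerivAt` and uniqueness of
the derivative). Let `e` be the local inverse of `φ` at `w` (`HasStrictDerivAt.toOpenPartialHomeomorph`
for the derivative `1 ≠ 0`; `ψ := e.symm`, i.e. `HasStrictDerivAt.localInverse`): `φ (ψ X) = X` on the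
target (an open neighbourhood of `φ w = 0`), `ψ (φ z) = z` on the source, `ψ` continuous on the target,
`ψ 0 = w`. Choose `ρ` with `ball 0 ρ ⊆ target` and `ψ '' ball 0 ρ ⊆ ball w r'` (continuity of `ψ` at `0`,
`ψ 0 = w`); then `phi_diff` holds. `lin`: near `w` we have `F z ∈ ball w r'` (continuity of `F` at `w`) and
`G (F z) = z`, so `φ z = φ (G (F z)) = φ (F z) / lam`.
-/

set_option autoImplicit false

open Filter Topology Metric Set

namespace Pool.Agent.H35.RL

theorem koenigs {F : ℂ → ℂ} {w lam : ℂ} (hF : ∀ᶠ z in 𝓝 w, DifferentiableAt ℂ F z)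
    (hw : F w = w) (hd : HasDerivAt F lam w) (hlam : 1 < ‖lam‖) :
    ∃ (φ ψ : ℂ → ℂ) (ρ : ℝ), Lin F w lam φ ψ ρ := by
  have hlam0 : lam ≠ 0 := by
    intro h
    rw [h, norm_zero] at hlam
    linarith
  obtain ⟨G, r, C, hr, hC, hGw, hGd, hG2, hGF⟩ := koe_inv hF hw hd hlam
  obtain ⟨φ, r', hr', hrr', hφw, hφd, hφ1, hφG⟩ := koe_phi hlam hr hC hGw hGd hG2
  have hopen : ball w r' ∈ 𝓝 w := ball_mem_nhds w hr'
  have han : AnalyticAt ℂ φ w := hφd.analyticAt hopen
  have hst : HasStrictDerivAt φ 1 w := by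
    have h1 := han.hasStrictDerivAt
    rwa [hφ1.deriv] at h1
  have hstF := hst.hasStrictFDerivAt_equiv one_ne_zero
  obtain ⟨e, hedef⟩ : ∃ e, e = hstF.toOpenPartialHomeomorph φ := ⟨_, rfl⟩
  have he : (e : ℂ → ℂ) = φ := by
    rw [hedef]; exact hstF.toOpenPartialHomeomorph_coe
  have hws : w ∈ e.source := by
    rw [hedef]; exact hstF.mem_toOpenPartialHomeomorph_source
  have h0t : (0 : ℂ) ∈ e.target := by
    have h1 : φ w ∈ (hstF.toOpenPartialHomeomorph φ).target :=
      hstF.image_mem_toOpenPartialHomeomorph_target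
    rw [hφw] at h1
    rw [hedef]
    exact h1
  have hsymm0 : e.symm 0 = w := by
    have h1 := e.left_inv hws
    rw [he, hφw] at h1
    exact h1
  have hcs : ContinuousAt e.symm 0 := e.continuousAt_symm h0t
  have h1 : ∀ᶠ X in 𝓝 (0 : ℂ), X ∈ e.target := e.open_target.mem_nhds h0t
  have h2 : ∀ᶠ X in 𝓝 (0 : ℂ), e.symm X ∈ ball w r' :=
    hcs.eventually (by rw [hsymm0]; exact hopen)
  obtain ⟨ρ, hρ, hball⟩ := Metric.eventually_nhds_iff_ball.1 (h1.and h2)
  refine ⟨φ, e.symm, ρ, hρ, hφw, hst, hsymm0, ?_, ?_, ?_, ?_, ?_⟩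
  · intro X hX
    exact (e.continuousAt_symm (hball X hX).1).continuousWithinAt
  · intro X hX
    have h3 := e.right_inv (hball X hX).1
    rw [he] at h3
    exact h3
  · filter_upwards [e.open_source.mem_nhds hws] with z hz
    have h3 := e.left_inv hz
    rw [he] at h3
    exact h3
  · intro X hX
    exact hφd.differentiableAt (isOpen_ball.mem_nhds (hball X hX).2)
  · have hFc : ∀ᶠ z in 𝓝 w, F z ∈ ball w r' := by
      have h3 := hd.continuousAt
      exact h3.eventually (by rw [hw]; exact hopen)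
    filter_upwards [hFc, hGF] with z hz hz2
    have h3 := hφG (F z) hz
    rw [hz2] at h3
    rw [h3, mul_div_cancel₀ _ hlam0]

end Pool.Agent.H35.RL
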