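import Pool.Agent.H35.RL.Defs

/-!
# Module KoeInv: the local inverse at a repelling fixed point

PROOF. `F` is analytic near `w` (`DifferentiableOn` an open set: `DifferentiableOn.analyticAt`), so it
is strictly differentiable at `w` with derivative `lam ≠ 0`: `ContDiffAt.localInverse` gives an
analytic `G` with `G w = w`, `G (F z) = z` near `w`. Its derivative at `w` is `1 / lam` (chain rule),
and `G z - w - (z - w) / lam` is analytic and vanishes to order `2`: `O(‖z - w‖ ^ 2)`
(`isBigO_sub_partialSum_pow`).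
-/

set_option autoImplicit false

open Filter Topology Metric Set

namespace Pool.Agent.H35.RL

/-- Second order Taylor estimate of an analytic function. -/
theorem taylor_two {G : ℂ → ℂ} {w g : ℂ} (hG : AnalyticAt ℂ G w) (hg : HasDerivAt G g w) :
    ∃ C : ℝ, 0 ≤ C ∧ ∀ᶠ z in 𝓝 w, ‖G z - G w - (z - w) * g‖ ≤ C * ‖z - w‖ ^ 2 := by
  obtain ⟨p, hp⟩ := hG
  have h1 := hp.isBigO_sub_partialSum_pow 2
  have hd : HasDerivAt G (p 1 fun _ => 1) w := hp.hasDerivAt
  have hg' : p 1 (fun _ => 1) = g := hd.unique hg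
  have h0 : p 0 (fun _ => 0) = G w := hp.coeff_zero _
  obtain ⟨C, hC⟩ := h1.bound
  refine ⟨max C 0, le_max_right _ _, ?_⟩
  have ht : Tendsto (fun z : ℂ => z - w) (𝓝 w) (𝓝 0) := by
    have : Tendsto (fun z : ℂ => z - w) (𝓝 w) (𝓝 (w - w)) := tendsto_id.sub_const w
    rwa [sub_self] at this
  filter_upwards [ht.eventually hC] with z hz
  have e1 : p.partialSum 2 (z - w) = G w + (z - w) * g := by
    rw [FormalMultilinearSeries.partialSum, Finset.sum_range_succ, Finset.sum_range_one]
    congr 1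
    · rw [← hp.coeff_zero fun _ => z - w]
    · have h2 := (p 1).map_smul_univ (fun _ => z - w) (fun _ => (1 : ℂ))
      simp only [smul_eq_mul, mul_one, Finset.prod_const, Finset.card_univ, Fintype.card_fin,
        pow_one] at h2
      rw [h2, hg']
  rw [e1, show w + (z - w) = z by ring] at hz
  have e2 : G z - G w - (z - w) * g = G z - (G w + (z - w) * g) := by ring
  rw [e2]
  refine hz.trans ?_
  rw [Real.norm_of_nonneg (by positivity)]
  exact mul_le_mul_of_nonneg_right (le_max_left _ _) (by positivity)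

theorem koe_inv {F : ℂ → ℂ} {w lam : ℂ} (hF : ∀ᶠ z in 𝓝 w, DifferentiableAt ℂ F z)
    (hw : F w = w) (hd : HasDerivAt F lam w) (hlam : 1 < ‖lam‖) :
    ∃ (G : ℂ → ℂ) (r C : ℝ), 0 < r ∧ 0 ≤ C ∧ G w = w ∧ DifferentiableOn ℂ G (ball w r) ∧
      (∀ z ∈ ball w r, ‖G z - w - (z - w) / lam‖ ≤ C * ‖z - w‖ ^ 2) ∧
      (∀ᶠ z in 𝓝 w, G (F z) = z) := by
  have hlam0 : lam ≠ 0 := by
    intro h; rw [h, norm_zero] at hlam; linarith
  have hFa : AnalyticAt ℂ F w := Complex.analyticAt_iff_eventually_differentiableAt.2 hF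
  have hC : ContDiffAt ℂ 1 F w := hFa.contDiffAt
  have hf' := hd.hasFDerivAt_equiv hlam0
  set G := hC.localInverse hf' one_ne_zero with hGdef
  have hGc : ContDiffAt ℂ 1 G w := by
    have := hC.to_localInverse hf' one_ne_zero
    rwa [hw] at this
  have hGw : G w = w := by
    have := hC.localInverse_apply_image hf' one_ne_zero
    rwa [hw] at this
  have hGF : ∀ᶠ z in 𝓝 w, G (F z) = z :=
    (hC.hasStrictFDerivAt' hf' one_ne_zero).eventually_left_inverse
  have hGdiff : ∀ᶠ z in 𝓝 w, DifferentiableAt ℂ G z := by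
    filter_upwards [hGc.eventually (by simp)] with z hz
    exact hz.differentiableAt (by simp)
  have hGa : AnalyticAt ℂ G w := Complex.analyticAt_iff_eventually_differentiableAt.2 hGdiff
  have hGd : HasDerivAt G lam⁻¹ w := by
    have h1 : HasDerivAt G (deriv G w) w := hGa.differentiableAt.hasDerivAt
    have h1' : HasDerivAt G (deriv G w) (F w) := by rw [hw]; exact h1
    have h2 : HasDerivAt (G ∘ F) (deriv G w * lam) w := h1'.comp w hd
    have h3 : HasDerivAt (G ∘ F) 1 w := (hasDerivAt_id w).congr_of_eventuallyEq hGF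
    have h4 : deriv G w * lam = 1 := h2.unique h3
    rw [← eq_inv_of_mul_eq_one_left h4]
    exact h1
  obtain ⟨C, hC0, hCe⟩ := taylor_two hGa hGd
  obtain ⟨r, hr0, hr⟩ := Metric.eventually_nhds_iff_ball.1 (hCe.and hGdiff)
  refine ⟨G, r, C, hr0, hC0, hGw, fun z hz => (hr z hz).2.differentiableWithinAt, ?_, hGF⟩
  intro z hz
  have := (hr z hz).1
  rwa [hGw, ← div_eq_mul_inv] at this

end Pool.Agent.H35.RL
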