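import Pool.Agent.H35.RL.RLocal
import Pool.Agent.H35.RL.NullForm
import Pool.Agent.H35.RL.Koe
import Pool.Agent.H35.RL.Cocyc

/-!
# Module RAE: a critical orbit landing on a repelling cycle, almost every direction

PROOF. `koenigs` for `F = it v0 n` at `w = x k` (differentiable near `w`, derivative `trD v0 n w`:
`orb_deriv` for the shifted orbit `fun i => x (k + i)`, restricted to `v = v0`; fixed: `orb_it`, `hper`)
gives `φ ψ ρ` and `L`. For `M : ℕ` let `L_M v = μ / lam ^ M * kap v0 v x k n`, a nonzero linear form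
(`kap_add`, `kap_smul`, `μ ≠ 0`, `lam ≠ 0`). By `null_psi` and `null_form` the set of `v` with
`L_M v ∈ ball 0 ρ` and `ψ (L_M v) ∈ Wᶜ` is null. For `v` outside these countably many null sets and
`{v | ¬ W ⊆ RA v0 v}` take `M = M0` from `rl_local`: `L_M v ∈ ball 0 ρ`, so `ψ (L_M v) ∈ W ⊆ RA v0 v`, so
`CAtt v0 v R (x 0)`.
-/

set_option autoImplicit false

open Filter Topology Polynomial Metric Set

namespace Pool.Agent.H35.RL

open Pool.Agent.H44.Fatou Pool.Agent.H32.BT Pool.Agent.H79.Eul Pool.Agent.H79.Par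

open MeasureTheory in
theorem rl_ae {d : ℕ} {v0 : E d} (hcop : IsCoprime (pol v0.1) (pol v0.2))
    (hdeg : max (pol v0.1).natDegree (pol v0.2).natDegree = d) (hd : 2 ≤ d) {W : Set ℂ}
    (hW : volume Wᶜ = 0) (hgood : volume {v : E d | ¬ W ⊆ RA v0 v} = 0) {x : ℕ → ℂ} {k n : ℕ}
    (ho : ∀ j, Orb v0 x j) (hk : 1 ≤ k) (hn : 0 < n) (hper : x (k + n) = x k)
    (hlam : 1 < ‖trD v0 n (x k)‖) (hkap : ∃ v, kap v0 v x k n ≠ 0) {R : Filter ℝ}
    (hR : R ≤ 𝓝[>] 0) {N : ℝ → ℕ} {μ : ℂ} (hμ0 : μ ≠ 0) (hN : Tendsto N R atTop)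
    (hμ : Tendsto (fun t : ℝ => (t : ℂ) * trD v0 n (x k) ^ N t) R (𝓝 μ)) :
    ∀ᵐ v : E d, CAtt v0 v R (x 0) := by
  have ho' : ∀ j, Orb v0 (fun i => x (k + i)) j := by
    intro j i hi
    exact ho (k + i + 1) (k + i) (by omega)
  have hfix : it v0 n (x k) = x k := by
    have h := orb_it (ho' n) n le_rfl
    simp only [Nat.add_zero] at h
    rw [h, hper]
  have hder : ∀ᶠ z in 𝓝 (x k), HasDerivAt (fun z => it v0 n z) (trD v0 n z) z := by
    have hc : Tendsto (fun u : ℂ => (v0, u)) (𝓝 (x k)) (𝓝 (v0, x k)) :=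
      (continuous_const.prodMk continuous_id).tendsto _
    have h := orb_deriv (ho' n)
    simp only [Nat.add_zero] at h
    exact hc.eventually h
  obtain ⟨φ, ψ, ρ, L⟩ := koenigs (F := it v0 n) (w := x k) (lam := trD v0 n (x k))
    (hder.mono fun z hz => hz.differentiableAt) hfix hder.self_of_nhds hlam
  have hlam0 : trD v0 n (x k) ≠ 0 := by
    intro h
    rw [h, norm_zero] at hlam
    linarith
  have h1 : ∀ᵐ v : E d, W ⊆ RA v0 v := by
    rw [ae_iff]
    exact hgood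
  have h2 : ∀ᵐ v : E d, ∀ M : ℕ, ¬ (μ / trD v0 n (x k) ^ M * kap v0 v x k n ∈ ball (0 : ℂ) ρ ∧
      ψ (μ / trD v0 n (x k) ^ M * kap v0 v x k n) ∈ Wᶜ) := by
    rw [ae_all_iff]
    intro M
    have h3 := null_form (fun v : E d => μ / trD v0 n (x k) ^ M * kap v0 v x k n)
      (fun v w => by rw [kap_add, mul_add]) (fun c v => by rw [kap_smul]; ring)
      (by
        obtain ⟨v, hv⟩ := hkap
        exact ⟨v, mul_ne_zero (div_ne_zero hμ0 (pow_ne_zero _ hlam0)) hv⟩)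
      (null_psi L hW)
    rw [ae_iff]
    simp only [not_not]
    exact h3
  filter_upwards [h1, h2] with v hv1 hv2
  obtain ⟨M0, hM0⟩ := rl_local (v := v) hcop hdeg hd ho hk hn hper hlam L hR hN hμ
  have h3 := hM0 M0 le_rfl
  refine h3.2 (hv1 ?_)
  by_contra hW'
  exact hv2 M0 ⟨h3.1, hW'⟩

end Pool.Agent.H35.RL
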