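import Pool.Agent.H35.RL.Shadow
import Pool.Agent.H35.RL.CritIt
import Pool.Agent.H35.RL.PullAtt

/-!
# Module RLocal: a critical orbit landing on a repelling cycle, one direction

PROOF. `w = x k`, `lam = trD v0 n w`, `F0 = it v0 n`, `T = (E d × ℝ) × ℂ`,
`l = ((𝓝 v ×ˢ R) ×ˢ 𝓝 (x 0)) ⊓ 𝓟 (crs v0)`, `h y = y.1.2`, `F y z = it (pv v0 y.1) n z`,
`u y = it (pv v0 y.1) k y.2`, `N' y = N y.1.2`, `b = XX v0 v n w`, `β = XX v0 v k (x 0)`. Note
`𝓝 v ×ˢ R ≤ flt v` (`hR`, `Filter.prod_mono`), so all `flt v` statements can be used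
(`Tendsto.mono_left`). `hpos`, `hlim`: `flt_pos`, `flt_lim`. `hF`: `fo` for the orbit `fun i => x (k + i)`
(`n` steps; it is an `Orb` by `ho`), composed with `((τ, z0), z) ↦ (τ, z)`. `hu`: `crit_it`. `hN`, `hμ`:
compose with `y ↦ y.1.2`. `F0 w = w`: `orb_it` for the shifted orbit and `hper`; continuity of `F0` at `w`:
`orb_deriv` at `v0` (or `orb_cont`). Let `ε` be given by `pull_near` for the shifted orbit. `shadow` gives `M0`.
For `M ≥ M0` with `ψ (..) ∈ RA v0 v`: let `Z y = (F y)^[N' y - M] (u y) → ψ (..)`; composing the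
eventuality in the definition of `RA` with `y ↦ (y.1, Z y)` gives `Att (Rf (pv v0 y.1)) (Z y)`
eventually along `l`; `pull_near` gives `Att (u y)` and `pull_one` with `orb_near ho` (denominators along
the first `k` steps from `y.2` near `x 0`) gives `Att (y.2)`. Along `l` means: eventually along
`(𝓝 v ×ˢ R) ×ˢ 𝓝 (x 0)`, if `y ∈ crs v0` (`Filter.eventually_inf_principal`).
-/

set_option autoImplicit false

open Filter Topology Polynomial Metric Set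

namespace Pool.Agent.H35.RL

open Pool.Agent.H44.Fatou Pool.Agent.H32.BT Pool.Agent.H79.Eul Pool.Agent.H79.Par

theorem rl_local {d : ℕ} {v0 v : E d} (hcop : IsCoprime (pol v0.1) (pol v0.2))
    (hdeg : max (pol v0.1).natDegree (pol v0.2).natDegree = d) (hd : 2 ≤ d) {x : ℕ → ℂ}
    {k n : ℕ} (ho : ∀ j, Orb v0 x j) (hk : 1 ≤ k) (hn : 0 < n) (hper : x (k + n) = x k)
    (hlam : 1 < ‖trD v0 n (x k)‖) {φ ψ : ℂ → ℂ} {ρ : ℝ}
    (L : Lin (it v0 n) (x k) (trD v0 n (x k)) φ ψ ρ) {R : Filter ℝ} (hR : R ≤ 𝓝[>] 0)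
    {N : ℝ → ℕ} {μ : ℂ} (hN : Tendsto N R atTop)
    (hμ : Tendsto (fun t : ℝ => (t : ℂ) * trD v0 n (x k) ^ N t) R (𝓝 μ)) :
    ∃ M0 : ℕ, ∀ M ≥ M0, μ / trD v0 n (x k) ^ M * kap v0 v x k n ∈ ball (0 : ℂ) ρ ∧
      (ψ (μ / trD v0 n (x k) ^ M * kap v0 v x k n) ∈ RA v0 v → CAtt v0 v R (x 0)) := by
  have hdeg1 : 1 ≤ max (pol v0.1).natDegree (pol v0.2).natDegree := by rw [hdeg]; omega
  have ho' : Orb v0 (fun i => x (k + i)) n := by
    intro j hj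
    exact ho (k + n) (k + j) (by omega)
  obtain ⟨l, hl⟩ : ∃ l : Filter ((E d × ℝ) × ℂ),
      l = ((𝓝 v ×ˢ R) ×ˢ 𝓝 (x 0)) ⊓ 𝓟 (crs v0) := ⟨_, rfl⟩
  have hvR : 𝓝 v ×ˢ R ≤ flt v := Filter.prod_mono le_rfl hR
  have hle2 : l ≤ (flt v ×ˢ 𝓝 (x 0)) ⊓ 𝓟 (crs v0) := by
    rw [hl]
    exact inf_le_inf_right _ (Filter.prod_mono hvR le_rfl)
  have hle : l ≤ flt v ×ˢ 𝓝 (x 0) := hle2.trans inf_le_left
  have hfst : Tendsto (fun y : (E d × ℝ) × ℂ => y.1) l (flt v) := tendsto_fst.mono_left hle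
  have hsnd : Tendsto (fun y : (E d × ℝ) × ℂ => y.1.2) l R := by
    have h1 : Tendsto (fun y : (E d × ℝ) × ℂ => y.1.2) ((𝓝 v ×ˢ R) ×ˢ 𝓝 (x 0)) R :=
      tendsto_snd.comp tendsto_fst
    rw [hl]
    exact h1.mono_left inf_le_left
  have hpos : ∀ᶠ τ in l, 0 < τ.1.2 := hfst.eventually (Pool.Agent.H79.Par.flt_pos v)
  have hlim : Tendsto (fun y : (E d × ℝ) × ℂ => y.1.2) l (𝓝 0) := (flt_lim v).comp hfst
  have hF : Tendsto (fun y : ((E d × ℝ) × ℂ) × ℂ =>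
      (it (pv v0 y.1.1) n y.2 - it v0 n y.2) / (y.1.1.2 : ℂ)) (l ×ˢ 𝓝 (x k))
      (𝓝 (XX v0 v n (x k))) := by
    have h1 := fo (v := v) ho'
    simp only [Nat.add_zero] at h1
    have h2 : Tendsto (fun y : ((E d × ℝ) × ℂ) × ℂ => (y.1.1, y.2)) (l ×ˢ 𝓝 (x k))
        (flt v ×ˢ 𝓝 (x k)) := (hfst.comp tendsto_fst).prodMk tendsto_snd
    exact h1.comp h2
  have hu : Tendsto (fun τ : (E d × ℝ) × ℂ => (it (pv v0 τ.1) k τ.2 - x k) / (τ.1.2 : ℂ)) l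
      (𝓝 (XX v0 v k (x 0))) :=
    (crit_it (v := v) hcop hdeg1 hk (ho k)).mono_left hle2
  have hN' : Tendsto (fun y : (E d × ℝ) × ℂ => N y.1.2) l atTop := hN.comp hsnd
  have hμ' : Tendsto (fun y : (E d × ℝ) × ℂ => (y.1.2 : ℂ) * trD v0 n (x k) ^ N y.1.2) l (𝓝 μ) :=
    hμ.comp hsnd
  have hc : ContinuousAt (it v0 n) (x k) := by
    have h1 := (orb_deriv ho').self_of_nhds
    simp only [Nat.add_zero] at h1
    exact h1.continuousAt
  have hw : it v0 n (x k) = x k := by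
    have h1 := orb_it ho' n le_rfl
    simp only [Nat.add_zero] at h1
    rw [h1, hper]
  obtain ⟨ε, hε, hpull⟩ := pull_near hcop hdeg (by omega) ho'
  simp only [Nat.add_zero] at hpull
  obtain ⟨M0, hM0⟩ := shadow (h := fun y : (E d × ℝ) × ℂ => y.1.2)
    (F := fun y z => it (pv v0 y.1) n z) (u := fun y => it (pv v0 y.1) k y.2)
    (N := fun y => N y.1.2) L hlam hc hw hpos hlim hF hu hN' hμ' hε
  refine ⟨M0, fun M hM => ?_⟩
  obtain ⟨h1, h2, h3⟩ := hM0 M hM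
  refine ⟨h1, fun hRA => ?_⟩
  have key : ∀ᶠ y in l, Att (Rf (pv v0 y.1)) (y.2 : OnePoint ℂ) := by
    have hRA' : ∀ᶠ y : (E d × ℝ) × ℂ in flt v ×ˢ
        𝓝 (ψ (μ / trD v0 n (x k) ^ M * kap v0 v x k n)),
        Att (Rf (pv v0 y.1)) (y.2 : OnePoint ℂ) := hRA
    have e1 := (hfst.prodMk h3).eventually hRA'
    have e2 := ((pv_lim v0 v).comp hfst).eventually hpull
    have e3 := ((pv_lim2 v0 v (x 0)).mono_left hle).eventually (orb_near (ho k))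
    have e4 := ((pv_lim v0 v).comp hfst).eventually (cop_near hcop hdeg (by omega))
    filter_upwards [e1, e2, e3, e4, h2] with y a1 a2 a3 a4 a5
    exact pull_one a4.1 a3 (a2 _ _ a5 a1)
  rw [hl, Filter.eventually_inf_principal] at key
  exact key

end Pool.Agent.H35.RL
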