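import Mathlib

/-!
# Module Subseq: choice of a subsequence

PROOF. `N_i t = ⌊Real.log (1 / t) / Real.log ‖lam i‖⌋₊`: for `0 < t < 1`,
`‖lam i‖⁻¹ ≤ ‖t lam_i ^ (N_i t)‖ ≤ 1`, and `N_i t → ∞` as `t → 0+` (`Real.tendsto_log_nhdsGT_zero`,
`tendsto_nat_floor_atTop`). The sequence `j ↦ (i ↦ r j * lam i ^ N_i (r j)) ∈ (Fin m → ℂ)` lies eventually
in the compact set `∏ {z | ‖lam i‖⁻¹ ≤ ‖z‖ ≤ 1}` (`isCompact_univ_pi`), so a subsequence converges
(`IsCompact.tendsto_subseq'` or shift the sequence so that `r j < 1` always; `tendsto_pi_nhds`), with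
limit `μ i`, `‖μ i‖ ≥ ‖lam i‖⁻¹ > 0`. `Tendsto f (map (r ∘ φ) atTop) l ↔ Tendsto (f ∘ r ∘ φ) atTop l`
(`tendsto_map'_iff`).
-/

set_option autoImplicit false

open Filter Topology Metric Set

namespace Pool.Agent.H35.RL

theorem subseq {m : ℕ} {lam : Fin m → ℂ} (hlam : ∀ i, 1 < ‖lam i‖) {r : ℕ → ℝ}
    (hr : Tendsto r atTop (𝓝[>] 0)) :
    ∃ φ : ℕ → ℕ, StrictMono φ ∧ ∀ i, ∃ (N : ℝ → ℕ) (μ : ℂ), μ ≠ 0 ∧
      Tendsto N (map (r ∘ φ) atTop) atTop ∧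
      Tendsto (fun t : ℝ => (t : ℂ) * lam i ^ N t) (map (r ∘ φ) atTop) (𝓝 μ) := by
  set N : Fin m → ℝ → ℕ := fun i t => ⌊Real.log (1 / t) / Real.log ‖lam i‖⌋₊ with hN
  have hlog : ∀ i, 0 < Real.log ‖lam i‖ := fun i => Real.log_pos (hlam i)
  have hl0 : ∀ i, 0 < ‖lam i‖ := fun i => lt_trans one_pos (hlam i)
  -- bounds
  have hup : ∀ i, ∀ t : ℝ, 0 < t → t < 1 → ‖(t : ℂ) * lam i ^ N i t‖ ≤ 1 := by
    intro i t ht ht1
    rw [norm_mul, norm_pow, Complex.norm_real, Real.norm_eq_abs, abs_of_pos ht]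
    have hx0 : 0 ≤ Real.log (1 / t) / Real.log ‖lam i‖ :=
      div_nonneg (Real.log_nonneg (by rw [le_div_iff₀ ht]; linarith)) (hlog i).le
    have h1 : (N i t : ℝ) ≤ Real.log (1 / t) / Real.log ‖lam i‖ := Nat.floor_le hx0
    rw [le_div_iff₀ (hlog i)] at h1
    have h2 : ‖lam i‖ ^ N i t ≤ 1 / t := by
      rw [← Real.log_le_log_iff (pow_pos (hl0 i) _) (by positivity), Real.log_pow]
      exact h1
    calc t * ‖lam i‖ ^ N i t ≤ t * (1 / t) := mul_le_mul_of_nonneg_left h2 ht.le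
      _ = 1 := by field_simp
  have hlow : ∀ i, ∀ t : ℝ, 0 < t → t < 1 → ‖lam i‖⁻¹ ≤ ‖(t : ℂ) * lam i ^ N i t‖ := by
    intro i t ht ht1
    rw [norm_mul, norm_pow, Complex.norm_real, Real.norm_eq_abs, abs_of_pos ht]
    have h1 : Real.log (1 / t) / Real.log ‖lam i‖ < (N i t : ℝ) + 1 := Nat.lt_floor_add_one _
    rw [div_lt_iff₀ (hlog i)] at h1
    have h2 : 1 / t ≤ ‖lam i‖ ^ (N i t + 1) := by
      rw [← Real.log_le_log_iff (by positivity) (pow_pos (hl0 i) _), Real.log_pow]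
      push_cast
      exact h1.le
    rw [inv_eq_one_div, div_le_iff₀ (hl0 i)]
    calc 1 = t * (1 / t) := by field_simp
      _ ≤ t * ‖lam i‖ ^ (N i t + 1) := mul_le_mul_of_nonneg_left h2 ht.le
      _ = t * ‖lam i‖ ^ N i t * ‖lam i‖ := by ring
  have hNlim : ∀ i, Tendsto (N i) (𝓝[>] 0) atTop := by
    intro i
    apply tendsto_nat_floor_atTop.comp
    apply Tendsto.atTop_div_const (hlog i)
    have h1 : Tendsto (fun t : ℝ => 1 / t) (𝓝[>] 0) atTop := by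
      simpa only [one_div] using tendsto_inv_nhdsGT_zero (𝕜 := ℝ)
    exact Real.tendsto_log_atTop.comp h1
  -- the compact set
  set K : Set (Fin m → ℂ) := Set.pi univ
    (fun i => closedBall (0 : ℂ) 1 ∩ {z : ℂ | ‖lam i‖⁻¹ ≤ ‖z‖}) with hK
  have hKc : IsCompact K := by
    apply isCompact_univ_pi
    intro i
    exact (isCompact_closedBall (0 : ℂ) 1).inter_right
      (isClosed_le continuous_const continuous_norm)
  set x : ℕ → (Fin m → ℂ) := fun j i => (r j : ℂ) * lam i ^ N i (r j) with hx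
  have hev : ∀ᶠ j in atTop, x j ∈ K := by
    have h1 : ∀ᶠ t : ℝ in 𝓝[>] 0, t ∈ Ioo (0 : ℝ) 1 := Ioo_mem_nhdsGT one_pos
    filter_upwards [hr.eventually h1] with j hj
    intro i _
    refine ⟨?_, hlow i (r j) hj.1 hj.2⟩
    rw [mem_closedBall, dist_zero_right]
    exact hup i (r j) hj.1 hj.2
  obtain ⟨a, haK, φ, hφ, hlim⟩ := hKc.tendsto_subseq' hev.frequently
  refine ⟨φ, hφ, fun i => ⟨N i, a i, ?_, ?_, ?_⟩⟩
  · have h1 : ‖lam i‖⁻¹ ≤ ‖a i‖ := (haK i (mem_univ i)).2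
    have h2 : 0 < ‖lam i‖⁻¹ := inv_pos.2 (hl0 i)
    exact norm_pos_iff.1 (lt_of_lt_of_le h2 h1)
  · rw [tendsto_map'_iff]
    exact (hNlim i).comp (hr.comp hφ.tendsto_atTop)
  · rw [tendsto_map'_iff]
    exact (tendsto_pi_nhds.1 hlim) i

end Pool.Agent.H35.RL
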