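import Pool.Agent.H35.RL.RAE
import Pool.Agent.H35.RL.Subseq
import Pool.Agent.H35.RL.DensSeq
import Pool.Agent.H35.RL.HypLocal

/-!
# Part D, main theorem (interface for the assembly of stage 2)

`W`: a set of full measure of points which are robustly attracted for almost every direction (parts A,
C, E). Every critical point is robustly attracted for almost every direction or lands on a repelling
cycle with nonzero transversality functional (part B). Then the proportion of bad perturbations of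
size `r` tends to zero.

PROOF. `dens_seq` with `bad r = {v | ¬ HypDeg (pv v0 (v, r))}`. Let `r` be a sequence. The set of zeros of
`wv v0` is finite (`Wr ≠ 0`), enumerate those of the second kind; choose for each of them `x, k, n`; `subseq`
for the multipliers `trD v0 n (x k)` gives `φ`; put `R = map (r ∘ φ) atTop ≤ 𝓝[>] 0`. For almost every `v`:
`CAtt v0 v R c` for every critical `c` (finite intersection): second kind `rl_ae`; first kind: `c ∈ RA v0 v`
implies `CAtt v0 v R c` (`Filter.prod_mono`). Then `hyp_local`.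
-/

set_option autoImplicit false

open Filter Topology Polynomial Metric Set

namespace Pool.Agent.H35.RL

open Pool.Agent.H44.Fatou Pool.Agent.H32.BT Pool.Agent.H79.Eul Pool.Agent.H79.Par

open MeasureTheory in
theorem rl_main {d : ℕ} (hd : 2 ≤ d) {v0 : E d} (hcop : IsCoprime (pol v0.1) (pol v0.2))
    (hdeg : max (pol v0.1).natDegree (pol v0.2).natDegree = d) (hinf : wv (rv v0) 0 ≠ 0)
    {W : Set ℂ} (hW : volume Wᶜ = 0) (hgood : volume {v : E d | ¬ W ⊆ RA v0 v} = 0)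
    (hcrit : ∀ c : ℂ, wv v0 c = 0 → volume {v : E d | c ∉ RA v0 v} = 0 ∨
      ∃ (x : ℕ → ℂ) (k n : ℕ), x 0 = c ∧ (∀ j, Orb v0 x j) ∧ 1 ≤ k ∧ 0 < n ∧ x (k + n) = x k ∧
        1 < ‖trD v0 n (x k)‖ ∧ ∃ v, kap v0 v x k n ≠ 0) :
    Tendsto (fun r : ℝ => volume (ball (0 : E d) 1 ∩ {v : E d | ¬ HypDeg (pv v0 (v, r))}))
      (𝓝[>] 0) (𝓝 0) := by
  refine dens_seq (bad := fun r => {v : E d | ¬ HypDeg (pv v0 (v, r))}) ?_
  intro r hr
  -- the zeros of `wv v0` are finitely many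
  obtain ⟨R0, hR0, hfar⟩ := no_crit_infty v0 hinf
  have hfar0 := hfar.self_of_nhds.1
  have hwr : ∀ z, wv v0 z = (Wr (pol v0.1) (pol v0.2)).eval z := by
    intro z
    rw [← wv_cf (pol_deg v0.1) (pol_deg v0.2), cf_pol, cf_pol]
  have hWr : Wr (pol v0.1) (pol v0.2) ≠ 0 := by
    intro h
    apply hfar0 ((R0 + 1 : ℝ) : ℂ)
    · rw [Complex.norm_real, Real.norm_of_nonneg (by linarith)]
      linarith
    · rw [hwr, h, eval_zero]
  have hfin : {c : ℂ | wv v0 c = 0}.Finite := by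
    refine (Wr (pol v0.1) (pol v0.2)).roots.toFinset.finite_toSet.subset ?_
    intro c hc
    have hc' : wv v0 c = 0 := hc
    rw [hwr] at hc'
    simp only [Finset.mem_coe, Multiset.mem_toFinset, mem_roots hWr, IsRoot.def]
    exact hc'
  set Z2 : Set ℂ := {c : ℂ | wv v0 c = 0 ∧ volume {v : E d | c ∉ RA v0 v} ≠ 0} with hZ2
  have hfin2 : Z2.Finite := hfin.subset fun c hc => hc.1
  have : Finite Z2 := hfin2.to_subtype
  obtain ⟨m, ⟨e⟩⟩ := Finite.exists_equiv_fin Z2
  have h2 : ∀ i : Fin m, ∃ (x : ℕ → ℂ) (k n : ℕ), x 0 = (e.symm i : ℂ) ∧ (∀ j, Orb v0 x j) ∧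
      1 ≤ k ∧ 0 < n ∧ x (k + n) = x k ∧ 1 < ‖trD v0 n (x k)‖ ∧ ∃ v, kap v0 v x k n ≠ 0 := by
    intro i
    rcases hcrit (e.symm i : ℂ) (e.symm i).2.1 with h | h
    · exact absurd h (e.symm i).2.2
    · exact h
  choose x k n hx0 hox hk hn hper hlam hkap using h2
  obtain ⟨φ, hφ, hsub⟩ := subseq (lam := fun i => trD v0 (n i) (x i (k i))) hlam hr
  refine ⟨φ, hφ, ?_⟩
  have hR : map (r ∘ φ) atTop ≤ 𝓝[>] (0 : ℝ) := hr.comp hφ.tendsto_atTop
  have hA : ∀ᵐ v : E d, ∀ i : Fin m, CAtt v0 v (map (r ∘ φ) atTop) (e.symm i : ℂ) := by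
    rw [ae_all_iff]
    intro i
    obtain ⟨N, μ, hμ0, hN, hμ⟩ := hsub i
    have h3 := rl_ae hcop hdeg hd hW hgood (hox i) (hk i) (hn i) (hper i) (hlam i) (hkap i) hR
      hμ0 hN hμ
    rw [hx0 i] at h3
    exact h3
  have hB : ∀ᵐ v : E d, ∀ c ∈ {c : ℂ | wv v0 c = 0 ∧ volume {v : E d | c ∉ RA v0 v} = 0},
      c ∈ RA v0 v := by
    rw [ae_ball_iff ((hfin.subset fun c hc => hc.1).countable)]
    intro c hc
    rw [ae_iff]
    exact hc.2
  filter_upwards [hA, hB] with v hvA hvB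
  have hC : ∀ c : ℂ, wv v0 c = 0 → CAtt v0 v (map (r ∘ φ) atTop) c := by
    intro c hc
    by_cases h3 : c ∈ Z2
    · have h4 := hvA (e ⟨c, h3⟩)
      rw [Equiv.symm_apply_apply] at h4
      exact h4
    · have h4 : volume {v : E d | c ∉ RA v0 v} = 0 := by
        by_contra h5
        exact h3 ⟨hc, h5⟩
      have h5 : ∀ᶠ y : (E d × ℝ) × ℂ in flt v ×ˢ 𝓝 c,
          Att (Rf (pv v0 y.1)) (y.2 : OnePoint ℂ) := hvB c ⟨hc, h4⟩
      have h6 := h5.filter_mono (Filter.prod_mono (Filter.prod_mono (le_refl (𝓝 v)) hR)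
        (le_refl (𝓝 c)))
      exact h6.mono fun y hy _ => hy
  have hD := hyp_local hd hcop hdeg hR hinf hC
  filter_upwards [hD] with τ hτ
  intro h7
  exact h7 hτ

end Pool.Agent.H35.RL
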