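import Pool.Agent.H35.RL.RAE
import Pool.Agent.H35.RL.Subseq
import Pool.Agent.H35.RL.KapNe
import Pool.Agent.H79.Par.PerDec
import Pool.Agent.H32.BT.Crit

/-!
# Module RepGood: type 3 critical points are good (interface of helper79)

PROOF. By `crit_of_wr` (H79/Par; or the argument in CFinal) `c` is critical for `Rf v0`, so by `h0` (Chart0) its
orbit stays in the plane: `orb_all` (H79/Par/PerDec) gives `x j = it v0 j c`, `Orb v0 x j` for all `j`,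
`(Rf v0)^[j] c = x j`. `Ty3`: `0 < n`, `FixMult (Rf v0)^[n] z a`, `1 < ‖a‖`, `(Rf v0)^[m] c = z`, so `x m = z` (coe
injective). Put `k = m + n ≥ 1`; `fix_trD` (H79/Par/PerDec) for the orbit `fun i => x (m + i)` gives
`x (m + n) = x m` and `trD v0 n (x m) = a`; so `x k = x m`, `x (k + n) = x k` (`x (j + n) = it v0 n (x j)`, `para_shift`
in H79/Par/ParaGood), `trD v0 n (x k) = a`. `kap_ne`. Let `r` be a sequence as in SubGood; `subseq` with
`m = 1` (`Fin 1`) gives `σ`, `N`, `μ`; `rl_ae` with `R = map (r ∘ σ) atTop ≤ 𝓝[>] 0` and `W = {z | Basin v0 z}` (`hW`;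
`{v | ¬ W ⊆ RA v0 v} ⊆ {v | ¬ RobDir v0 v}`, because RobDir is exactly this inclusion) gives
`∀ᵐ v, CAtt v0 v R (x 0)`. `SeqGood` from `CAtt`: the map `((j, v'), z) ↦ ((v', r (σ j)), z)` tends to
`(𝓝 v ×ˢ R) ×ˢ 𝓝 c` along `(atTop ×ˢ 𝓝 v) ×ˢ 𝓝 c`.
-/

set_option autoImplicit false

open Filter Topology Polynomial Metric Set

namespace Pool.Agent.H35.RL

open Pool.Agent.H44.Fatou Pool.Agent.H32.BT Pool.Agent.H79.Eul Pool.Agent.H79.Par

open MeasureTheory in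
theorem rep_good {d : ℕ} (hd : 2 ≤ d) {v0 : E d} (h0 : Chart0 v0) {c z : ℂ} {n : ℕ}
    (hc : wv v0 c = 0) (h : Ty3 (Rf v0) (c : OnePoint ℂ) (z : OnePoint ℂ) n)
    (hW : volume {z : ℂ | ¬ Basin v0 z} = 0) (hV : volume {v : E d | ¬ RobDir v0 v} = 0)
    (hnr : NonRep v0) : SubGood v0 c := by
  obtain ⟨hcop, hdeg, _, hinf⟩ := h0
  have hd1 : 1 ≤ max (pol v0.1).natDegree (pol v0.2).natDegree := by omega
  have hcr : IsCrit (Rf v0) (c : OnePoint ℂ) := by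
    apply crit_of_wr hcop hd1
    rw [← wv_cf (pol_deg _) (pol_deg _), cf_pol, cf_pol]
    exact hc
  obtain ⟨ho, hx⟩ := orb_all (hinf _ hcr)
  obtain ⟨hn, ⟨a, ha, hfm⟩, m, hm⟩ := h
  have hzm : (z : OnePoint ℂ) = ((it v0 m c : ℂ) : OnePoint ℂ) := by
    rw [← hm, hx m]
  have hzm' : z = it v0 m c := OnePoint.coe_injective hzm
  have hit0 : it v0 0 c = c := rfl
  have ho' : ∀ j, Orb v0 (fun i => it v0 (m + i) c) j := by
    intro j i _
    exact ho (m + i + 1) (m + i) (by omega)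
  have hfix := fix_trD (x := fun i => it v0 (m + i) c) (ho' n) (a := a) (by
    show FixMult (Rf v0)^[n] ((it v0 (m + 0) c : ℂ) : OnePoint ℂ) a
    rw [Nat.add_zero, ← hzm]
    exact hfm)
  have hper0 : it v0 (m + n) c = it v0 m c := hfix.1
  have hmul0 : trD v0 n (it v0 m c) = a := hfix.2
  have hper : it v0 (m + n + n) c = it v0 (m + n) c := by
    have e1 : m + n + n = n + (m + n) := by omega
    have e2 : m + n = n + m := by omega
    rw [e1, it_add, hper0, ← it_add, ← e2, hper0]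
  have hlam : 1 < ‖trD v0 n (it v0 (m + n) c)‖ := by
    rw [hper0, hmul0]
    exact ha
  have hkap := kap_ne (x := fun j => it v0 j c) hd hcop hdeg ho (by omega : 1 ≤ m + n) hn hper
    hc hlam hnr
  intro r hr0 hr
  have hr' : Tendsto r atTop (𝓝[>] 0) :=
    tendsto_nhdsWithin_iff.2 ⟨hr, Eventually.of_forall hr0⟩
  obtain ⟨σ, hσ, hsub⟩ := subseq (m := 1) (lam := fun _ => trD v0 n (it v0 (m + n) c))
    (fun _ => hlam) hr'
  obtain ⟨N, μ, hμ0, hN, hμ⟩ := hsub 0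
  have hR : map (r ∘ σ) atTop ≤ 𝓝[>] (0 : ℝ) := hr'.comp hσ.tendsto_atTop
  have hW' : volume ({z : ℂ | Basin v0 z})ᶜ = 0 := hW
  have hgood : volume {v : E d | ¬ {z : ℂ | Basin v0 z} ⊆ RA v0 v} = 0 := by
    have e1 : {v : E d | ¬ {z : ℂ | Basin v0 z} ⊆ RA v0 v} = {v : E d | ¬ RobDir v0 v} := rfl
    rw [e1]
    exact hV
  have hae := rl_ae (x := fun j => it v0 j c) hcop hdeg hd hW' hgood ho (by omega : 1 ≤ m + n) hn
    hper hlam hkap hR hμ0 hN hμ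
  refine ⟨σ, hσ, ?_⟩
  unfold SeqGood
  rw [← ae_iff]
  filter_upwards [hae] with v hv
  have hv' : ∀ᶠ y : (E d × ℝ) × ℂ in (𝓝 v ×ˢ map (r ∘ σ) atTop) ×ˢ 𝓝 c,
      wv (pv v0 y.1) y.2 = 0 → Att (Rf (pv v0 y.1)) (y.2 : OnePoint ℂ) := hv
  have ht : Tendsto (fun w : (ℕ × E d) × ℂ => (((w.1.2, (r ∘ σ) w.1.1) : E d × ℝ), w.2))
      ((atTop ×ˢ 𝓝 v) ×ˢ 𝓝 c) ((𝓝 v ×ˢ map (r ∘ σ) atTop) ×ˢ 𝓝 c) := by
    refine Tendsto.prodMk (Tendsto.prodMk ?_ ?_) tendsto_snd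
    · exact tendsto_snd.comp tendsto_fst
    · exact tendsto_map.comp (tendsto_fst.comp tendsto_fst)
  exact ht.eventually hv'

end Pool.Agent.H35.RL
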