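import Mathlib

/-!
# Module Stay: the orbit stays near the fixed point as long as `h ‖lam‖ ^ i` is small

PROOF. Choose `0 < ε1 ≤ ε` with `‖z - w‖ / 2 ≤ ‖φ z‖ ≤ 2 ‖z - w‖` on `ball w ε1` (strict differentiability at
`w`, `φ w = 0`), then `0 < ε2 ≤ ε1` and a set of `l` on which, for `z ∈ ball w ε2`, `F τ z ∈ ball w ε1` and
`‖φ (F τ z) - lam φ z‖ ≤ B h`, `B = ‖b‖ + 1` (`h1`, `h2`; `Filter.eventually_prod_iff`, or `ev_ball` in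
H79/Eul/Cpt style). Also `‖u τ - w‖ ≤ h (‖β‖ + 1)`, so `‖φ (u τ)‖ ≤ 2 h (‖β‖ + 1)` and `u τ ∈ ball w ε2`
eventually, and `h ‖lam‖ ^ N ≤ ‖μ‖ + 1`. Put `C = 2 (‖β‖ + 1) + B / (‖lam‖ - 1)` and choose `M0` with
`2 C (‖μ‖ + 1) / ‖lam‖ ^ M0 < ε2`. Claim, by induction on `i ≤ N τ - M`: `z_j := (F τ)^[j] (u τ) ∈ ball w ε2`
for `j ≤ i` and `‖φ z_i‖ ≤ ‖lam‖ ^ i h C - h B / (‖lam‖ - 1)` (recursion
`‖φ z_(i+1)‖ ≤ ‖lam‖ ‖φ z_i‖ + B h`). Since `i ≤ N - M`: `‖lam‖ ^ i h ≤ ‖lam‖ ^ (N - M) h ≤ (‖μ‖ + 1) / ‖lam‖ ^ M`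
(if `M ≤ N τ`, which holds eventually by `hN`), so `‖z_i - w‖ ≤ 2 ‖φ z_i‖ < ε2` because
`z_i ∈ ball w ε1`.
-/

set_option autoImplicit false

open Filter Topology Metric Set

namespace Pool.Agent.H35.RL

theorem stay {T : Type} {l : Filter T} {φ : ℂ → ℂ} {w lam b β μ : ℂ} {h : T → ℝ}
    {F : T → ℂ → ℂ} {u : T → ℂ} {N : T → ℕ} (hlam : 1 < ‖lam‖)
    (hφ0 : φ w = 0) (hφ : HasStrictDerivAt φ 1 w)
    (hpos : ∀ᶠ τ in l, 0 < h τ) (hlim : Tendsto h l (𝓝 0))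
    (h1 : Tendsto (fun y : T × ℂ => (φ (F y.1 y.2) - lam * φ y.2) / (h y.1 : ℂ)) (l ×ˢ 𝓝 w)
      (𝓝 b))
    (h2 : Tendsto (fun y : T × ℂ => F y.1 y.2) (l ×ˢ 𝓝 w) (𝓝 w))
    (hu : Tendsto (fun τ => (u τ - w) / (h τ : ℂ)) l (𝓝 β))
    (hN : Tendsto N l atTop) (hμ : Tendsto (fun τ => (h τ : ℂ) * lam ^ N τ) l (𝓝 μ))
    {ε : ℝ} (hε : 0 < ε) :
    ∃ M0 : ℕ, ∀ M ≥ M0, ∀ᶠ τ in l, ∀ i ≤ N τ - M, (F τ)^[i] (u τ) ∈ ball w ε := by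
  -- the coordinate
  have hφ1 : ∀ᶠ z in 𝓝 w, ‖φ z - (z - w)‖ ≤ 1 / 2 * ‖z - w‖ := by
    have h3 := hφ.isLittleO.def (by norm_num : (0 : ℝ) < 1 / 2)
    have h4 : Tendsto (fun z : ℂ => (z, w)) (𝓝 w) (𝓝 (w, w)) :=
      (continuous_id.prodMk continuous_const).tendsto w
    filter_upwards [h4.eventually h3] with z hz
    simpa [hφ0] using hz
  obtain ⟨ε0, hε0, hφ2⟩ := Metric.eventually_nhds_iff_ball.1 hφ1
  set ε1 : ℝ := min ε ε0 with hε1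
  have hε1pos : 0 < ε1 := lt_min hε hε0
  have hlow : ∀ z ∈ ball w ε1, ‖z - w‖ ≤ 2 * ‖φ z‖ ∧ ‖φ z‖ ≤ 2 * ‖z - w‖ := by
    intro z hz
    have h3 := hφ2 z (ball_subset_ball (min_le_right _ _) hz)
    have h4 : ‖z - w‖ ≤ ‖φ z‖ + 1 / 2 * ‖z - w‖ := by
      calc ‖z - w‖ = ‖φ z - (φ z - (z - w))‖ := by congr 1; ring
        _ ≤ ‖φ z‖ + ‖φ z - (z - w)‖ := norm_sub_le _ _
        _ ≤ ‖φ z‖ + 1 / 2 * ‖z - w‖ := by gcongr
    have h5 : ‖φ z‖ ≤ 1 / 2 * ‖z - w‖ + ‖z - w‖ := by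
      calc ‖φ z‖ = ‖(φ z - (z - w)) + (z - w)‖ := by congr 1; ring
        _ ≤ ‖φ z - (z - w)‖ + ‖z - w‖ := norm_add_le _ _
        _ ≤ 1 / 2 * ‖z - w‖ + ‖z - w‖ := by gcongr
    exact ⟨by linarith, by linarith [norm_nonneg (z - w)]⟩
  set B : ℝ := ‖b‖ + 1 with hB
  have hBpos : 0 < B := by positivity
  have e1 : ∀ᶠ y : T × ℂ in l ×ˢ 𝓝 w,
      ‖(φ (F y.1 y.2) - lam * φ y.2) / (h y.1 : ℂ)‖ < B ∧ F y.1 y.2 ∈ ball w ε1 := by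
    refine (h1.norm.eventually (gt_mem_nhds (by rw [hB]; linarith))).and
      (h2.eventually (ball_mem_nhds w hε1pos))
  obtain ⟨pa, hpa, pb, hpb, hab⟩ := Filter.eventually_prod_iff.1 e1
  obtain ⟨ε3, hε3, hpb2⟩ := Metric.eventually_nhds_iff_ball.1 hpb
  set ε2 : ℝ := min ε1 ε3 with hε2
  have hε2pos : 0 < ε2 := lt_min hε1pos hε3
  set Λ : ℝ := ‖lam‖ with hΛ
  have hΛ0 : 0 < Λ := by linarith
  have hΛ1 : 0 < Λ - 1 := by linarith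
  set C : ℝ := 2 * (‖β‖ + 1) + B / (Λ - 1) with hC
  have hCpos : 0 < C := by positivity
  have hμpos : 0 < ‖μ‖ + 1 := by positivity
  obtain ⟨M0, hM0⟩ := pow_unbounded_of_one_lt (2 * C * (‖μ‖ + 1) / ε2) hlam
  rw [div_lt_iff₀ hε2pos] at hM0
  refine ⟨M0, fun M hM => ?_⟩
  have e2 : ∀ᶠ τ in l, ‖(u τ - w) / (h τ : ℂ)‖ < ‖β‖ + 1 :=
    hu.norm.eventually (gt_mem_nhds (by linarith))
  have e3 : ∀ᶠ τ in l, h τ * (‖β‖ + 1) < ε2 := by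
    have h3 := hlim.mul_const (‖β‖ + 1)
    rw [zero_mul] at h3
    exact h3.eventually (gt_mem_nhds hε2pos)
  have e4 : ∀ᶠ τ in l, ‖(h τ : ℂ) * lam ^ N τ‖ < ‖μ‖ + 1 :=
    hμ.norm.eventually (gt_mem_nhds (by linarith))
  have e5 : ∀ᶠ τ in l, M ≤ N τ := hN.eventually_ge_atTop M
  filter_upwards [hpos, hpa, e2, e3, e4, e5] with τ k1 k2 k3 k4 k5 k6
  have hnh : ‖(h τ : ℂ)‖ = h τ := by
    rw [Complex.norm_real, Real.norm_eq_abs, abs_of_pos k1]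
  rw [norm_div, hnh, div_lt_iff₀ k1] at k3
  rw [norm_mul, norm_pow, hnh] at k5
  have hΛM : Λ ^ M0 ≤ Λ ^ M := pow_le_pow_right₀ hlam.le hM
  have step : ∀ z ∈ ball w ε2, F τ z ∈ ball w ε1 ∧ ‖φ (F τ z)‖ ≤ Λ * ‖φ z‖ + B * h τ := by
    intro z hz
    obtain ⟨q1, q2⟩ := hab k2 (hpb2 z (ball_subset_ball (min_le_right _ _) hz))
    refine ⟨q2, ?_⟩
    simp only at q1
    rw [norm_div, hnh, div_lt_iff₀ k1] at q1
    calc ‖φ (F τ z)‖ = ‖lam * φ z + (φ (F τ z) - lam * φ z)‖ := by congr 1; ring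
      _ ≤ ‖lam * φ z‖ + ‖φ (F τ z) - lam * φ z‖ := norm_add_le _ _
      _ ≤ Λ * ‖φ z‖ + B * h τ := by
        rw [norm_mul]
        gcongr
  have claim : ∀ i : ℕ, i ≤ N τ - M → (F τ)^[i] (u τ) ∈ ball w ε2 ∧
      ‖φ ((F τ)^[i] (u τ))‖ ≤ Λ ^ i * h τ * C - h τ * B / (Λ - 1) := by
    intro i
    induction i with
    | zero =>
      intro _
      rw [Function.iterate_zero, id_eq]
      have hu2 : u τ ∈ ball w ε2 := by
        rw [mem_ball, dist_eq_norm]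
        calc ‖u τ - w‖ ≤ (‖β‖ + 1) * h τ := k3.le
          _ = h τ * (‖β‖ + 1) := by ring
          _ < ε2 := k4
      refine ⟨hu2, ?_⟩
      have h3 := (hlow (u τ) (ball_subset_ball (min_le_left _ _) hu2)).2
      have h4 : Λ ^ 0 * h τ * C - h τ * B / (Λ - 1) = 2 * ((‖β‖ + 1) * h τ) := by
        rw [hC, pow_zero]
        ring
      rw [h4]
      exact h3.trans (by gcongr)
    | succ i ih =>
      intro hi
      obtain ⟨i1, i2⟩ := ih (by omega)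
      rw [Function.iterate_succ_apply']
      obtain ⟨s1, s2⟩ := step _ i1
      have h3 : ‖φ (F τ ((F τ)^[i] (u τ)))‖ ≤
          Λ ^ (i + 1) * h τ * C - h τ * B / (Λ - 1) := by
        calc ‖φ (F τ ((F τ)^[i] (u τ)))‖ ≤ Λ * ‖φ ((F τ)^[i] (u τ))‖ + B * h τ := s2
          _ ≤ Λ * (Λ ^ i * h τ * C - h τ * B / (Λ - 1)) + B * h τ := by gcongr
          _ = Λ ^ (i + 1) * h τ * C - h τ * B / (Λ - 1) := by
            field_simp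
            ring
      refine ⟨?_, h3⟩
      rw [mem_ball, dist_eq_norm]
      have h4 := (hlow _ s1).1
      have h5 : 0 ≤ h τ * B / (Λ - 1) := by positivity
      have h6 : Λ ^ (i + 1) * Λ ^ M ≤ Λ ^ N τ := by
        rw [← pow_add]
        exact pow_le_pow_right₀ hlam.le (by omega)
      have h7 : Λ ^ (i + 1) * h τ * Λ ^ M ≤ ‖μ‖ + 1 := by
        calc Λ ^ (i + 1) * h τ * Λ ^ M = h τ * (Λ ^ (i + 1) * Λ ^ M) := by ring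
          _ ≤ h τ * Λ ^ N τ := by gcongr
          _ ≤ ‖μ‖ + 1 := k5.le
      have hΛMpos : 0 < Λ ^ M := by positivity
      have h8 : 2 * (Λ ^ (i + 1) * h τ * C) < ε2 := by
        have h9 : 2 * (Λ ^ (i + 1) * h τ * C) * Λ ^ M < ε2 * Λ ^ M := by
          calc 2 * (Λ ^ (i + 1) * h τ * C) * Λ ^ M = 2 * C * (Λ ^ (i + 1) * h τ * Λ ^ M) := by
                ring
            _ ≤ 2 * C * (‖μ‖ + 1) := by gcongr
            _ < Λ ^ M0 * ε2 := hM0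
            _ ≤ Λ ^ M * ε2 := by gcongr
            _ = ε2 * Λ ^ M := by ring
        exact lt_of_mul_lt_mul_right h9 hΛMpos.le
      linarith
  intro i hi
  exact ball_subset_ball ((min_le_left _ _).trans (min_le_left _ _)) (claim i hi).1

end Pool.Agent.H35.RL
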