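import Pool.Agent.H35.RL.Tann
import Pool.Agent.H35.RL.ConjFO
import Pool.Agent.H35.RL.Stay

/-!
# Module Shadow: position of the orbit near the repelling fixed point

PROOF. Let `ε' ≤ ε` be such that on `ball w ε'`: `ψ (φ z) = z` (`L.psi_phi`), and
`‖φ (F τ z) - lam φ z‖ ≤ B h τ` with `B = ‖b‖ + 1`, eventually in `τ` (`conj_fo` (1)). Take `M0` from `stay` for
`ε'`, enlarged so that `‖μ / lam ^ M * (β + b / (lam - 1))‖ < ρ` for `M ≥ M0`. Fix `M ≥ M0`,
`K τ = N τ - M` (→ ∞), `z_i = (F τ)^[i] (u τ)`, `e τ i = (φ z_(i+1) - lam φ z_i) / h`. Then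
`φ z_m / lam ^ m = φ (u τ) + h ∑_(i<m) e τ i / lam ^ (i + 1)` (induction on `m`), `‖e τ i‖ ≤ B` for
`i < K τ`, and for fixed `i` `z_i → w` as `τ → l` (induction, `conj_fo` (2) composed with
`τ ↦ (τ, z_i)`; `z_0 = u τ → w` from `hu`, `hlim`), so `e τ i → b`. By `tann` the sum at `m = K τ` tends to
`b / (lam - 1)`; `φ (u τ) / h → β` (strict derivative `1` at `w`, `φ w = 0`, `hu`). Since `K τ + M = N τ`
eventually, `φ z_(K τ) = lam ^ (K τ) h (φ (u τ) / h + ∑) → (μ / lam ^ M) (β + b / (lam - 1)) =: X`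
(`h lam ^ (K τ) = h lam ^ N / lam ^ M`). Finally `z_(K τ) = ψ (φ z_(K τ)) → ψ X` by continuity of `ψ` at `X`
(`L.psi_cont`, `X ∈ ball 0 ρ` open).
-/

set_option autoImplicit false

open Filter Topology Metric Set

namespace Pool.Agent.H35.RL

/-- the telescoping identity -/
theorem shadow_sum {f : ℂ → ℂ} {φ : ℂ → ℂ} {lam h u : ℂ} (hlam : lam ≠ 0) (hh : h ≠ 0) (m : ℕ) :
    φ (f^[m] u) = lam ^ m * h * (φ u / h + ∑ i ∈ Finset.range m,
      (φ (f^[i + 1] u) - lam * φ (f^[i] u)) / h / lam ^ (i + 1)) := by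
  induction m with
  | zero =>
    rw [Finset.range_zero, Finset.sum_empty, Function.iterate_zero, id_eq, pow_zero]
    field_simp
    ring
  | succ m ih =>
    rw [Finset.sum_range_succ]
    have e1 : lam ^ (m + 1) * h * (φ u / h + (∑ i ∈ Finset.range m,
        (φ (f^[i + 1] u) - lam * φ (f^[i] u)) / h / lam ^ (i + 1) +
        (φ (f^[m + 1] u) - lam * φ (f^[m] u)) / h / lam ^ (m + 1))) =
        lam * (lam ^ m * h * (φ u / h + ∑ i ∈ Finset.range m,
          (φ (f^[i + 1] u) - lam * φ (f^[i] u)) / h / lam ^ (i + 1))) +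
        (φ (f^[m + 1] u) - lam * φ (f^[m] u)) := by
      have h1 : lam ^ (m + 1) * h * ((φ (f^[m + 1] u) - lam * φ (f^[m] u)) / h / lam ^ (m + 1)) =
          φ (f^[m + 1] u) - lam * φ (f^[m] u) := by
        have h2 : lam ^ (m + 1) ≠ 0 := pow_ne_zero _ hlam
        field_simp
      calc _ = lam * (lam ^ m * h * (φ u / h + ∑ i ∈ Finset.range m,
          (φ (f^[i + 1] u) - lam * φ (f^[i] u)) / h / lam ^ (i + 1))) +
          lam ^ (m + 1) * h * ((φ (f^[m + 1] u) - lam * φ (f^[m] u)) / h / lam ^ (m + 1)) := by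
            ring
        _ = _ := by rw [h1]
    rw [e1, ← ih]
    ring

theorem shadow {T : Type} {l : Filter T} {F0 φ ψ : ℂ → ℂ} {w lam b β μ : ℂ} {ρ : ℝ}
    {h : T → ℝ} {F : T → ℂ → ℂ} {u : T → ℂ} {N : T → ℕ} (L : Lin F0 w lam φ ψ ρ)
    (hlam : 1 < ‖lam‖) (hc : ContinuousAt F0 w) (hw : F0 w = w)
    (hpos : ∀ᶠ τ in l, 0 < h τ) (hlim : Tendsto h l (𝓝 0))
    (hF : Tendsto (fun y : T × ℂ => (F y.1 y.2 - F0 y.2) / (h y.1 : ℂ)) (l ×ˢ 𝓝 w) (𝓝 b))
    (hu : Tendsto (fun τ => (u τ - w) / (h τ : ℂ)) l (𝓝 β))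
    (hN : Tendsto N l atTop) (hμ : Tendsto (fun τ => (h τ : ℂ) * lam ^ N τ) l (𝓝 μ))
    {ε : ℝ} (hε : 0 < ε) :
    ∃ M0 : ℕ, ∀ M ≥ M0, μ / lam ^ M * (β + b / (lam - 1)) ∈ ball (0 : ℂ) ρ ∧
      (∀ᶠ τ in l, ∀ i ≤ N τ - M, (F τ)^[i] (u τ) ∈ ball w ε) ∧
      Tendsto (fun τ => (F τ)^[N τ - M] (u τ)) l
        (𝓝 (ψ (μ / lam ^ M * (β + b / (lam - 1))))) := by
  obtain ⟨c1, c2⟩ := conj_fo L hc hw hpos hlim hF
  have hlam0 : lam ≠ 0 := by
    intro h0
    rw [h0, norm_zero] at hlam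
    linarith
  set B : ℝ := ‖b‖ + 1 with hB
  have e1 : ∀ᶠ y : T × ℂ in l ×ˢ 𝓝 w,
      ‖(φ (F y.1 y.2) - lam * φ y.2) / (h y.1 : ℂ)‖ < B :=
    c1.norm.eventually (gt_mem_nhds (by rw [hB]; linarith))
  obtain ⟨pa, hpa, pb, hpb, hab⟩ := Filter.eventually_prod_iff.1 e1
  obtain ⟨ε3, hε3, hpb2⟩ := Metric.eventually_nhds_iff_ball.1 hpb
  obtain ⟨ε4, hε4, hpsi⟩ := Metric.eventually_nhds_iff_ball.1 L.psi_phi
  set ε' : ℝ := min ε (min ε3 ε4) with hε'
  have hε'pos : 0 < ε' := lt_min hε (lt_min hε3 hε4)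
  obtain ⟨M1, hM1⟩ := stay hlam L.phi0 L.phi_strict hpos hlim c1 c2 hu hN hμ hε'pos
  have hρ := L.hρ
  obtain ⟨M2, hM2⟩ := pow_unbounded_of_one_lt (‖μ * (β + b / (lam - 1))‖ / ρ) hlam
  rw [div_lt_iff₀ hρ] at hM2
  refine ⟨max M1 M2, fun M hM => ?_⟩
  have hMM1 : M1 ≤ M := (le_max_left _ _).trans hM
  have hMM2 : M2 ≤ M := (le_max_right _ _).trans hM
  have hlamM : lam ^ M ≠ 0 := pow_ne_zero _ hlam0
  have hX : μ / lam ^ M * (β + b / (lam - 1)) ∈ ball (0 : ℂ) ρ := by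
    rw [mem_ball, dist_zero_right, div_mul_eq_mul_div, norm_div, norm_pow,
      div_lt_iff₀ (by positivity)]
    calc ‖μ * (β + b / (lam - 1))‖ < ‖lam‖ ^ M2 * ρ := hM2
      _ ≤ ‖lam‖ ^ M * ρ := by
        apply mul_le_mul_of_nonneg_right _ hρ.le
        exact pow_le_pow_right₀ hlam.le hMM2
      _ = ρ * ‖lam‖ ^ M := by ring
  have hst := hM1 M hMM1
  refine ⟨hX, ?_, ?_⟩
  · filter_upwards [hst] with τ hτ i hi
    exact ball_subset_ball (min_le_left _ _) (hτ i hi)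
  -- the orbit positions for fixed i
  have hne : ∀ᶠ τ in l, (h τ : ℂ) ≠ 0 := by
    filter_upwards [hpos] with τ hτ
    exact_mod_cast hτ.ne'
  have hlimC : Tendsto (fun τ => (h τ : ℂ)) l (𝓝 0) := by
    have := (Complex.continuous_ofReal.tendsto 0).comp hlim
    rw [Complex.ofReal_zero] at this
    exact this
  have hu0 : Tendsto u l (𝓝 w) := by
    have h3 : Tendsto (fun τ => (h τ : ℂ) * ((u τ - w) / (h τ : ℂ)) + w) l (𝓝 (0 * β + w)) :=
      (hlimC.mul hu).add_const w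
    rw [zero_mul, zero_add] at h3
    apply h3.congr'
    filter_upwards [hne] with τ hτ
    rw [mul_div_cancel₀ _ hτ, sub_add_cancel]
  have hz : ∀ i : ℕ, Tendsto (fun τ => (F τ)^[i] (u τ)) l (𝓝 w) := by
    intro i
    induction i with
    | zero => simpa using hu0
    | succ i ih =>
      have h3 : Tendsto (fun τ => (τ, (F τ)^[i] (u τ))) l (l ×ˢ 𝓝 w) := tendsto_id.prodMk ih
      have h4 := c2.comp h3
      refine h4.congr (fun τ => ?_)
      rw [Function.iterate_succ_apply']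
      rfl
  have he : ∀ i : ℕ, Tendsto (fun τ => (φ ((F τ)^[i + 1] (u τ)) - lam * φ ((F τ)^[i] (u τ))) /
      (h τ : ℂ)) l (𝓝 b) := by
    intro i
    have h3 : Tendsto (fun τ => (τ, (F τ)^[i] (u τ))) l (l ×ˢ 𝓝 w) := tendsto_id.prodMk (hz i)
    refine (c1.comp h3).congr (fun τ => ?_)
    rw [Function.iterate_succ_apply']
    rfl
  have hK : Tendsto (fun τ => N τ - M) l atTop := (tendsto_sub_atTop_nat M).comp hN
  have hbd : ∀ᶠ τ in l, ∀ i < N τ - M,
      ‖(φ ((F τ)^[i + 1] (u τ)) - lam * φ ((F τ)^[i] (u τ))) / (h τ : ℂ)‖ ≤ B := by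
    filter_upwards [hst, hpa] with τ h3 h4 i hi
    have h5 := h3 i hi.le
    have h6 := hab h4 (hpb2 _ (ball_subset_ball ((min_le_right _ _).trans (min_le_left _ _)) h5))
    rw [Function.iterate_succ_apply']
    exact h6.le
  have hsum := tann hlam hK hbd he
  -- the starting point
  have hφu : Tendsto (fun τ => φ (u τ) / (h τ : ℂ)) l (𝓝 β) := by
    have h3 : (fun z => φ z - (z - w)) =o[𝓝 w] (fun z => z - w) := by
      have h4 := L.phi_strict.isLittleO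
      have h5 : Tendsto (fun z : ℂ => (z, w)) (𝓝 w) (𝓝 (w, w)) :=
        (continuous_id.prodMk continuous_const).tendsto w
      have h6 := h4.comp_tendsto h5
      refine h6.congr (fun z => ?_) (fun z => rfl)
      simp [L.phi0]
    have h7 : (fun τ => φ (u τ) - (u τ - w)) =o[l] (fun τ => u τ - w) := h3.comp_tendsto hu0
    have h8 : (fun τ => u τ - w) =O[l] (fun τ => (h τ : ℂ)) := by
      refine Asymptotics.isBigO_of_div_tendsto_nhds ?_ β hu
      filter_upwards [hne] with τ hτ h0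
      exact absurd h0 hτ
    have h9 := (h7.trans_isBigO h8).tendsto_div_nhds_zero
    have h10 := h9.add hu
    rw [zero_add] at h10
    refine h10.congr (fun τ => ?_)
    rw [← add_div]
    congr 1
    ring
  have hmain : Tendsto (fun τ => φ ((F τ)^[N τ - M] (u τ))) l
      (𝓝 (μ / lam ^ M * (β + b / (lam - 1)))) := by
    have h3 := (hμ.div_const (lam ^ M)).mul (hφu.add hsum)
    apply h3.congr'
    filter_upwards [hne, hN.eventually_ge_atTop M] with τ h4 h5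
    rw [shadow_sum (f := F τ) (φ := φ) (u := u τ) hlam0 h4 (N τ - M)]
    have h6 : (h τ : ℂ) * lam ^ N τ / lam ^ M = lam ^ (N τ - M) * (h τ : ℂ) := by
      rw [div_eq_iff hlamM]
      have h7 : lam ^ N τ = lam ^ (N τ - M) * lam ^ M := by
        rw [← pow_add]
        congr 1
        omega
      rw [h7]
      ring
    rw [h6]
  have hψ : ContinuousAt ψ (μ / lam ^ M * (β + b / (lam - 1))) :=
    L.psi_cont.continuousAt (isOpen_ball.mem_nhds hX)
  refine (hψ.tendsto.comp hmain).congr' ?_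
  filter_upwards [hst] with τ h3
  have h4 := h3 (N τ - M) le_rfl
  exact hpsi _ (ball_subset_ball ((min_le_right _ _).trans (min_le_right _ _)) h4)

end Pool.Agent.H35.RL
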