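import Mathlib

/-!
# Module Tann: Tannery's theorem for geometric weights

PROOF. The sum is `∑' i, (if i < K τ then e τ i / lam ^ (i + 1) else 0)` (`tsum_eq_sum`), dominated by
`|B| / ‖lam‖ ^ (i + 1)` (summable, geometric series); for fixed `i` eventually `i < K τ`, so the `i`-th
term tends to `b / lam ^ (i + 1)`: `tendsto_tsum_of_dominated_convergence`. The limit is
`∑' i, b / lam ^ (i + 1) = b / (lam - 1)` (`tsum_geometric_of_norm_lt_one` for `lam⁻¹`).
-/

set_option autoImplicit false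

open Filter Topology Metric Set

namespace Pool.Agent.H35.RL

theorem tann {T : Type} {l : Filter T} {lam b : ℂ} (hlam : 1 < ‖lam‖) {K : T → ℕ}
    (hK : Tendsto K l atTop) {e : T → ℕ → ℂ} {B : ℝ}
    (hB : ∀ᶠ τ in l, ∀ i < K τ, ‖e τ i‖ ≤ B) (he : ∀ i, Tendsto (fun τ => e τ i) l (𝓝 b)) :
    Tendsto (fun τ => ∑ i ∈ Finset.range (K τ), e τ i / lam ^ (i + 1)) l
      (𝓝 (b / (lam - 1))) := by
  have hl0 : lam ≠ 0 := by
    intro h
    rw [h, norm_zero] at hlam
    linarith
  have hl1 : lam - 1 ≠ 0 := by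
    intro h
    rw [sub_eq_zero] at h
    rw [h, norm_one] at hlam
    linarith
  have hinv : ‖lam⁻¹‖ < 1 := by
    rw [norm_inv]
    exact inv_lt_one_of_one_lt₀ hlam
  have hsum : ∑' i : ℕ, b / lam ^ (i + 1) = b / (lam - 1) := by
    have h1 : ∀ i : ℕ, b / lam ^ (i + 1) = (b / lam) * (lam⁻¹) ^ i := by
      intro i
      rw [inv_pow, pow_succ]
      field_simp
    have h2 : (1 - lam⁻¹) ≠ 0 := by
      intro h
      apply hl1
      have h3 : lam * (1 - lam⁻¹) = lam - 1 := by
        rw [mul_sub, mul_one, mul_inv_cancel₀ hl0]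
      rw [← h3, h, mul_zero]
    simp_rw [h1]
    rw [tsum_mul_left, tsum_geometric_of_norm_lt_one hinv]
    have h4 : lam * (1 - lam⁻¹) = lam - 1 := by
      rw [mul_sub, mul_one, mul_inv_cancel₀ hl0]
    rw [← h4]
    field_simp
  have hgeq : ∀ τ, ∑ i ∈ Finset.range (K τ), e τ i / lam ^ (i + 1) =
      ∑' i : ℕ, if i < K τ then e τ i / lam ^ (i + 1) else 0 := by
    intro τ
    rw [tsum_eq_sum (s := Finset.range (K τ))]
    · refine Finset.sum_congr rfl fun i hi => ?_
      rw [if_pos (Finset.mem_range.1 hi)]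
    · intro i hi
      rw [if_neg (fun h => hi (Finset.mem_range.2 h))]
  simp_rw [hgeq]
  rw [← hsum]
  refine tendsto_tsum_of_dominated_convergence (bound := fun i => |B| * (‖lam‖⁻¹) ^ (i + 1))
    ?_ ?_ ?_
  · have h3 : Summable (fun i : ℕ => (‖lam‖⁻¹) ^ i) := by
      refine summable_geometric_of_lt_one (inv_nonneg.2 (norm_nonneg _)) ?_
      exact inv_lt_one_of_one_lt₀ hlam
    exact ((summable_nat_add_iff 1).2 h3).mul_left _
  · intro i
    have h4 : Tendsto (fun τ => e τ i / lam ^ (i + 1)) l (𝓝 (b / lam ^ (i + 1))) :=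
      (he i).div_const _
    refine h4.congr' ?_
    filter_upwards [hK.eventually_gt_atTop i] with τ hτ
    rw [if_pos hτ]
  · filter_upwards [hB] with τ hτ i
    by_cases hi : i < K τ
    · rw [if_pos hi, norm_div, norm_pow, div_eq_mul_inv, ← inv_pow]
      exact mul_le_mul_of_nonneg_right ((hτ i hi).trans (le_abs_self B)) (by positivity)
    · rw [if_neg hi, norm_zero]
      positivity

end Pool.Agent.H35.RL
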